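import Pool.Agent.GameMem200.Basic

/-!
# The automaton and the collision lemma
-/

open Set

namespace Pool.Agent.GameMem200

/-- The states: `dead`; `E r` (the letter `a` may still be read `r` times); `L i τ` (level `i`,
type `τ`). -/
inductive Q : Type
  | dead : Q
  | E : ℕ → Q
  | L : ℕ → Bool → Q

/-- The four colours: `(false, false) = a`, `(false, true) = b` and the two test letters
`(true, false)`, `(true, true)`. -/
abbrev Col : Type := Bool × Bool

/-- The transition function. -/
def dl (S : ℕ → Bool) : Q → Col → Q
  | Q.dead, _ => Q.dead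
  | Q.E 0, (false, false) => Q.dead
  | Q.E (r + 1), (false, false) => Q.E r
  | Q.E r, (false, true) => Q.E r
  | Q.E r, (true, _) => Q.E r
  | Q.L i τ, (false, x) => Q.L (i + 1) (τ ^^ (x && S i))
  | Q.L i τ, (true, x) => Q.E (if x = τ then i + 1 else i)

/-- The order on the states. -/
def qle : Q → Q → Prop
  | Q.dead, _ => True
  | Q.E _, Q.dead => False
  | Q.E r, Q.E r' => r ≤ r'
  | Q.E r, Q.L i _ => r ≤ i
  | Q.L _ _, Q.dead => False
  | Q.L _ _, Q.E _ => False
  | Q.L i τ, Q.L i' τ' => i < i' ∨ (i = i' ∧ τ = τ')

lemma qle_refl (q : Q) : qle q q := by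
  cases q <;> simp [qle]

lemma qle_trans {p q r : Q} (h : qle p q) (h' : qle q r) : qle p r := by
  cases p <;> cases q <;> cases r <;> simp only [qle] at h h' ⊢ <;> try omega
  rcases h with h | h <;> rcases h' with h' | h'
  · left; omega
  · left; omega
  · left; omega
  · right; exact ⟨h.1.trans h'.1, h.2.trans h'.2⟩

lemma qle_dead {q : Q} (h : qle q Q.dead) : q = Q.dead := by
  cases q <;> simp only [qle] at h
  rfl

lemma dl_E (S : ℕ → Bool) (r : ℕ) (c : Col) : dl S (Q.E r) c =
    if c = (false, false) then (if r = 0 then Q.dead else Q.E (r - 1)) else Q.E r := by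
  obtain ⟨k, x⟩ := c
  cases k <;> cases x <;> cases r <;> simp [dl]

lemma dl_mono (S : ℕ → Bool) {p q : Q} (h : qle p q) (c : Col) : qle (dl S p c) (dl S q c) := by
  obtain ⟨k, x⟩ := c
  cases p with
  | dead => simp [dl, qle]
  | E r =>
    cases q with
    | dead => simp [qle] at h
    | E r' =>
      simp only [qle] at h
      cases k <;> cases x <;> cases r <;> cases r' <;> simp only [dl, qle] <;> omega
    | L i τ =>
      simp only [qle] at h
      rw [dl_E]
      cases k
      · split_ifs
        · simp [qle]
        · simp only [dl, qle]; omega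
        · simp only [dl, qle]; omega
      · rw [if_neg (by simp)]
        simp only [dl]
        split_ifs
        · simp only [qle]; omega
        · simp only [qle]; omega
  | L i τ =>
    cases q with
    | dead => simp [qle] at h
    | E r' => simp [qle] at h
    | L i' τ' =>
      simp only [qle] at h
      cases k
      · simp only [dl, qle]
        rcases h with h | ⟨rfl, rfl⟩
        · left; omega
        · right; exact ⟨rfl, rfl⟩
      · simp only [dl, qle]
        rcases h with h | ⟨rfl, rfl⟩
        · split_ifs <;> omega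
        · exact le_rfl

/-- Three generators for the upward closure of a set of states. -/
lemma gen3 (X : Set Q) (hX : X.Nonempty) : ∃ g : Fin 3 → Q, (∀ j, g j ∈ X) ∧
    (∀ x ∈ X, ∃ j, qle (g j) x) ∧ (Q.L 0 false ∈ X → qle (g 0) (Q.L 0 false)) := by
  classical
  by_cases hd : Q.dead ∈ X
  · exact ⟨fun _ => Q.dead, fun _ => hd, fun x _ => ⟨0, by simp [qle]⟩, fun _ => by simp [qle]⟩
  by_cases hL : ∃ i τ, Q.L i τ ∈ X
  · obtain ⟨τ0, hτ0⟩ := Nat.find_spec hL
    set i0 := Nat.find hL with hi0
    have hmin : ∀ i τ, Q.L i τ ∈ X → i0 ≤ i := fun i τ h => Nat.find_min' hL ⟨τ, h⟩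
    let g0 : Q := if Q.L i0 false ∈ X then Q.L i0 false else Q.L i0 true
    let g1 : Q := if Q.L i0 true ∈ X then Q.L i0 true else Q.L i0 false
    have hg0 : g0 ∈ X := by
      by_cases h : Q.L i0 false ∈ X
      · simp only [g0, if_pos h]; exact h
      · simp only [g0, if_neg h]
        cases τ0
        · exact absurd hτ0 h
        · exact hτ0
    have hg1 : g1 ∈ X := by
      by_cases h : Q.L i0 true ∈ X
      · simp only [g1, if_pos h]; exact h
      · simp only [g1, if_neg h]
        cases τ0
        · exact hτ0
        · exact absurd hτ0 h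
    have hLgen : ∀ i τ, Q.L i τ ∈ X → qle g0 (Q.L i τ) ∨ qle g1 (Q.L i τ) := by
      intro i τ h
      rcases (hmin i τ h).lt_or_eq with h1 | h1
      · left
        by_cases h2 : Q.L i0 false ∈ X
        · simp only [g0, if_pos h2, qle]; exact Or.inl h1
        · simp only [g0, if_neg h2, qle]; exact Or.inl h1
      · subst h1
        cases τ
        · left; simp only [g0, if_pos h]; exact qle_refl _
        · right; simp only [g1, if_pos h]; exact qle_refl _
    have hinit : Q.L 0 false ∈ X → qle g0 (Q.L 0 false) := by
      intro h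
      have h1 : i0 = 0 := Nat.le_zero.1 (hmin 0 false h)
      simp only [g0, h1, if_pos h]
      exact qle_refl _
    by_cases hE : ∃ r, Q.E r ∈ X
    · have hE1 := Nat.find_spec hE
      set r0 := Nat.find hE with hr0
      refine ⟨![g0, g1, Q.E r0], ?_, ?_, hinit⟩
      · intro j
        fin_cases j
        · exact hg0
        · exact hg1
        · exact hE1
      · intro x hx
        cases x with
        | dead => exact absurd hx hd
        | E r => exact ⟨2, Nat.find_min' hE hx⟩
        | L i τ =>
          rcases hLgen i τ hx with h | h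
          · exact ⟨0, h⟩
          · exact ⟨1, h⟩
    · refine ⟨![g0, g1, g0], ?_, ?_, hinit⟩
      · intro j
        fin_cases j
        · exact hg0
        · exact hg1
        · exact hg0
      · intro x hx
        cases x with
        | dead => exact absurd hx hd
        | E r => exact absurd ⟨r, hx⟩ hE
        | L i τ =>
          rcases hLgen i τ hx with h | h
          · exact ⟨0, h⟩
          · exact ⟨1, h⟩
  · have hE : ∃ r, Q.E r ∈ X := by
      obtain ⟨x, hx⟩ := hX
      cases x with
      | dead => exact absurd hx hd
      | E r => exact ⟨r, hx⟩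
      | L i τ => exact absurd ⟨i, τ, hx⟩ hL
    refine ⟨fun _ => Q.E (Nat.find hE), fun _ => Nat.find_spec hE, ?_, ?_⟩
    · intro x hx
      cases x with
      | dead => exact absurd hx hd
      | E r => exact ⟨0, Nat.find_min' hE hx⟩
      | L i τ => exact absurd ⟨i, τ, hx⟩ hL
    · intro h
      exact absurd ⟨0, false, h⟩ hL

/-! ### The collision lemma -/

/-- The state of a finite automaton after `n` letters. -/
def runF {k : ℕ} (f : Fin k → Bool → Fin k) (m : Fin k) (w : ℕ → Bool) : ℕ → Fin k
  | 0 => m
  | n + 1 => f (runF f m w n) (w n)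

/-- The type of a word after `n` letters. -/
def typ (S w : ℕ → Bool) : ℕ → Bool
  | 0 => false
  | n + 1 => typ S w n ^^ (w n && S n)

/-- The property of the set `S` that is used. -/
def Window (S : ℕ → Bool) : Prop :=
  ∀ k j, j < k → ∃ n, k ≤ n ∧ k.factorial ∣ n ∧ ∀ x, n ≤ x → x < n + k → (S x = true ↔ x = n + j)

lemma exists_window : ∃ S, Window S := by
  classical
  refine ⟨fun x => decide (∃ r, 3 ≤ r ∧ x = r.factorial + (Nat.unpair r).1), ?_⟩
  intro k j hj
  set r := Nat.pair j (k + 3) with hr
  have hrk : k + 3 ≤ r := Nat.right_le_pair j (k + 3)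
  have hur : (Nat.unpair r).1 = j := by rw [hr, Nat.unpair_pair]
  refine ⟨r.factorial, ?_, Nat.factorial_dvd_factorial (by omega), ?_⟩
  · have := Nat.self_le_factorial r
    omega
  · intro x hx1 hx2
    rw [decide_eq_true_iff]
    constructor
    · rintro ⟨r', hr', rfl⟩
      rcases lt_trichotomy r' r with h | h | h
      · exfalso
        have h1 : (r' + 1).factorial ≤ r.factorial := Nat.factorial_le (by omega)
        have h2 : (Nat.unpair r').1 ≤ r' := Nat.unpair_left_le r'
        have h3 : (r' + 1).factorial = r' * r'.factorial + r'.factorial := by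
          rw [Nat.factorial_succ]; ring
        have h4 : 2 ≤ r'.factorial := by
          have : (2:ℕ).factorial ≤ r'.factorial := Nat.factorial_le (by omega)
          simpa using this
        nlinarith
      · subst h
        rw [hur]
      · exfalso
        have h1 : (r + 1).factorial ≤ r'.factorial := Nat.factorial_le (by omega)
        have h3 : (r + 1).factorial = r * r.factorial + r.factorial := by
          rw [Nat.factorial_succ]; ring
        have h4 : 1 ≤ r.factorial := Nat.factorial_pos r
        nlinarith
    · intro h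
      exact ⟨r, by omega, by rw [hur]; exact h⟩

lemma runF_const {k : ℕ} (f : Fin k → Bool → Fin k) (m : Fin k) (w : ℕ → Bool) (n : ℕ)
    (hw : ∀ x, x < n → w x = false) : runF f m w n = (fun t => f t false)^[n] m := by
  induction n with
  | zero => rfl
  | succ n ih =>
    rw [runF, ih (fun x hx => hw x (by omega)), hw n (by omega), Function.iterate_succ_apply']

lemma iter_period {k : ℕ} (g : Fin k → Fin k) (m : Fin k) {n : ℕ} (hn : k ≤ n) :
    g^[n + k.factorial] m = g^[n] m := by
  obtain ⟨a, b, hab, he⟩ : ∃ a b : Fin (k + 1), a < b ∧ g^[a.1] m = g^[b.1] m := by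
    obtain ⟨a, b, hne, he⟩ := Fintype.exists_ne_map_eq_of_card_lt
      (fun a : Fin (k + 1) => g^[a.1] m) (by simp)
    rcases lt_or_gt_of_ne hne with h | h
    · exact ⟨a, b, h, he⟩
    · exact ⟨b, a, h, he.symm⟩
  have hab' : a.1 < b.1 := hab
  set p := b.1 - a.1 with hp
  have hstep : ∀ n, a.1 ≤ n → g^[n + p] m = g^[n] m := by
    intro n hn
    obtain ⟨c, rfl⟩ := Nat.exists_eq_add_of_le hn
    have e1 : a.1 + c + p = c + b.1 := by omega
    rw [e1, Function.iterate_add_apply, ← he, ← Function.iterate_add_apply, add_comm]
  have hdvd : p ∣ k.factorial := Nat.dvd_factorial (by omega) (by have := b.2; omega)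
  obtain ⟨c, hc⟩ := hdvd
  rw [hc]
  clear hc
  induction c with
  | zero => rfl
  | succ c ih =>
    rw [Nat.mul_succ, ← add_assoc, hstep _ (by have := a.2; have := b.2; omega), ih]

lemma iter_eq {k : ℕ} (g : Fin k → Fin k) (m : Fin k) {n n' : ℕ} (hn : k ≤ n) (hn' : k ≤ n')
    (hd : k.factorial ∣ n) (hd' : k.factorial ∣ n') : g^[n] m = g^[n'] m := by
  have key : ∀ n c, k ≤ n → g^[n + c * k.factorial] m = g^[n] m := by
    intro n c hn
    induction c with
    | zero => simp
    | succ c ih =>
      rw [Nat.succ_mul, ← add_assoc, iter_period g m (by omega), ih]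
  rcases le_total n n' with h | h
  · obtain ⟨c, hc⟩ := (Nat.dvd_sub hd' hd)
    have : n' = n + c * k.factorial := by rw [mul_comm]; omega
    rw [this, key n c hn]
  · obtain ⟨c, hc⟩ := (Nat.dvd_sub hd hd')
    have : n = n' + c * k.factorial := by rw [mul_comm]; omega
    rw [this, key n' c hn']

/-- In every automaton with `k` states two words of the same length `i` (depending only on `k`) but
of different types lead to the same state. -/
theorem collision {S : ℕ → Bool} (hS : Window S) (k : ℕ) : ∃ i : ℕ, ∀ (f : Fin k → Bool → Fin k)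
    (m : Fin k), ∃ w w' : ℕ → Bool, runF f m w i = runF f m w' i ∧ typ S w i ≠ typ S w' i := by
  choose! N hN1 hN2 hN3 using hS k
  obtain ⟨B, hB⟩ : ∃ B, ∀ j, j < k → N j ≤ B := by
    refine ⟨∑ j ∈ Finset.range k, N j, fun j hj => ?_⟩
    exact Finset.single_le_sum (f := N) (fun _ _ => Nat.zero_le _) (Finset.mem_range.2 hj)
  refine ⟨B + k, fun f m => ?_⟩
  have hk : 0 < k := m.pos
  set t : Fin k := (fun t => f t false)^[N 0] m with ht
  have ht' : ∀ j, j < k → (fun t => f t false)^[N j] m = t := fun j hj =>
    iter_eq _ m (hN1 j hj) (hN1 0 hk) (hN2 j hj) (hN2 0 hk)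
  -- two different words of length `k` from the state `t`
  let ex : (Fin k → Bool) → ℕ → Bool := fun u x => if h : x < k then u ⟨x, h⟩ else false
  obtain ⟨u, u', hne, hu⟩ := Fintype.exists_ne_map_eq_of_card_lt
    (fun u : Fin k → Bool => runF f t (ex u) k) (by simp [Nat.lt_two_pow_self])
  obtain ⟨j, hj⟩ := Function.ne_iff.1 hne
  set n := N j.1 with hn
  let wd : (Fin k → Bool) → ℕ → Bool := fun u x => if x < n then false else ex u (x - n)
  have hrun0 : ∀ u : Fin k → Bool, runF f m (wd u) n = t := by
    intro u
    rw [runF_const f m (wd u) n (fun x hx => by simp [wd, hx])]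
    exact ht' j.1 j.2
  have hrun1 : ∀ (u : Fin k → Bool) (y : ℕ), runF f m (wd u) (n + y) = runF f t (ex u) y := by
    intro u y
    induction y with
    | zero => exact hrun0 u
    | succ y ih =>
      rw [← add_assoc, runF, runF, ih]
      congr 1
      simp [wd]
  have htail : ∀ (u : Fin k → Bool) (x : ℕ), n + k ≤ x → wd u x = false := by
    intro u x hx
    simp only [wd, ex]
    rw [if_neg (by omega), dif_neg (by omega)]
  have hrun2 : ∀ y, runF f m (wd u) (n + k + y) = runF f m (wd u') (n + k + y) := by
    intro y
    induction y with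
    | zero =>
      rw [add_zero, hrun1, hrun1]; exact hu
    | succ y ih =>
      rw [← add_assoc, runF, runF, ih, htail u _ (by omega), htail u' _ (by omega)]
  have htyp0 : ∀ (u : Fin k → Bool) (y : ℕ), y ≤ n → typ S (wd u) y = false := by
    intro u y hy
    induction y with
    | zero => rfl
    | succ y ih =>
      rw [typ, ih (by omega)]
      have : wd u y = false := by simp only [wd]; rw [if_pos (by omega)]
      rw [this]; rfl
  have htyp1 : ∀ (u : Fin k → Bool) (y : ℕ), y ≤ k →
      typ S (wd u) (n + y) = if j.1 < y then u j else false := by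
    intro u y hy
    induction y with
    | zero => rw [add_zero, htyp0 u n le_rfl]; simp
    | succ y ih =>
      rw [← add_assoc, typ, ih (by omega)]
      have h1 := hN3 j.1 j.2 (n + y) (by omega) (by omega)
      have h2 : wd u (n + y) = u ⟨y, by omega⟩ := by
        simp only [wd, ex]
        rw [if_neg (by omega), dif_pos (by omega)]
        congr 1
        ext
        simp
      by_cases hy' : y = j.1
      · have h3 : S (n + y) = true := h1.2 (by omega)
        rw [h3, h2]
        have h4 : (⟨y, by omega⟩ : Fin k) = j := Fin.ext hy'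
        rw [h4, if_neg (by omega), if_pos (by omega)]
        simp
      · have h3 : S (n + y) = false := by
          cases h : S (n + y)
          · rfl
          · exact absurd (h1.1 h) (by omega)
        rw [h3, Bool.and_false, Bool.xor_false]
        by_cases h5 : j.1 < y
        · rw [if_pos h5, if_pos (by omega)]
        · rw [if_neg h5, if_neg (by omega)]
  have htyp2 : ∀ (u : Fin k → Bool) (y : ℕ), typ S (wd u) (n + k + y) = u j := by
    intro u y
    induction y with
    | zero => rw [add_zero, htyp1 u k le_rfl, if_pos j.2]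
    | succ y ih =>
      rw [← add_assoc, typ, ih, htail u _ (by omega)]
      simp
  have hBn : ∃ y, B + k = n + k + y := ⟨B - n, by have := hB j.1 j.2; omega⟩
  obtain ⟨y, hy⟩ := hBn
  refine ⟨wd u, wd u', ?_, ?_⟩
  · rw [hy]; exact hrun2 y
  · rw [hy, htyp2, htyp2]; exact hj

/-- the state after reading `n` letters `(false, w 0), …` from level zero -/
lemma run_level (S w : ℕ → Bool) (st : ℕ → Q) (h0 : st 0 = Q.L 0 false) (i : ℕ)
    (h : ∀ n, n < i → st (n + 1) = dl S (st n) (false, w n)) :
    ∀ n, n ≤ i → st n = Q.L n (typ S w n) := by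
  intro n hn
  induction n with
  | zero => exact h0
  | succ n ih =>
    rw [h n (by omega), ih (by omega)]
    rfl

end Pool.Agent.GameMem200
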