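import Mathlib

/-!
# Games on finite arenas: general and chromatic memory

Shared definitions and the shared core of the results on `MP_674d90_lc`, `MP_4814b8_lc`,
`MP_def589_lc`.
-/

open Set

namespace Pool.Agent.GameMem200

/-- An arena over the colours `C`: a finite nonempty set of nodes, the set `P` of the nodes of
Protagonist (all the other nodes belong to Antagonist), and a set of coloured edges such that every
node has an outgoing edge. -/
structure Arena (C : Type) where
  /-- nodes -/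
  V : Type
  finV : Finite V
  neV : Nonempty V
  /-- nodes of Protagonist -/
  P : Set V
  /-- edges -/
  E : Set (V × C × V)
  out : ∀ v, ∃ c w, (v, c, w) ∈ E

namespace Arena

variable {C : Type} (A : Arena C)

/-- Triples (source, colour, target). -/
abbrev Edge : Type := A.V × C × A.V

/-- The last node of a path starting in `u`. -/
def last (u : A.V) (l : List A.Edge) : A.V := l.foldl (fun _ e => e.2.2) u

/-- `l` is a finite path starting in `u`. -/
def IsPath (u : A.V) (l : List A.Edge) : Prop :=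
  ∀ l' e, l' ++ [e] <+: l → e ∈ A.E ∧ e.1 = A.last u l'

/-- A move for each starting node and each finite path. -/
abbrev Strat : Type := A.V → List A.Edge → A.Edge

/-- `S` is a strategy of Protagonist: to each finite path ending in one of his nodes it assigns an
outgoing edge of that node. -/
def IsStrategy (S : A.Strat) : Prop :=
  ∀ u l, A.IsPath u l → A.last u l ∈ A.P → S u l ∈ A.E ∧ (S u l).1 = A.last u l

/-- The finite path made of the first `n` edges of a play. -/
def pre (ρ : ℕ → A.Edge) (n : ℕ) : List A.Edge := (List.range n).map ρ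

/-- `ρ` is an infinite play starting in `u`. -/
def IsPlay (u : A.V) (ρ : ℕ → A.Edge) : Prop :=
  (ρ 0).1 = u ∧ (∀ n, ρ n ∈ A.E) ∧ ∀ n, (ρ (n + 1)).1 = (ρ n).2.2

/-- The play `ρ` from `u` is consistent with `S`. -/
def Consistent (S : A.Strat) (u : A.V) (ρ : ℕ → A.Edge) : Prop :=
  ∀ n, (ρ n).1 ∈ A.P → ρ n = S u (A.pre ρ n)

/-- `S` wins from `u` for the winning condition `W`. -/
def Wins (W : Set (ℕ → C)) (S : A.Strat) (u : A.V) : Prop :=
  ∀ ρ, A.IsPlay u ρ → A.Consistent S u ρ → (fun n => (ρ n).2.1) ∈ W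

/-- `S` wins from every node from which some strategy wins. -/
def Optimal (W : Set (ℕ → C)) (S : A.Strat) : Prop :=
  ∀ u, (∃ S', A.IsStrategy S' ∧ A.Wins W S' u) → A.Wins W S u

/-- A memory structure with `k` states. -/
structure Memory (k : ℕ) where
  /-- initial state -/
  init : Fin k
  /-- update function -/
  upd : Fin k → A.Edge → Fin k

variable {A}

/-- The memory state after a path. -/
def Memory.run {k : ℕ} (M : A.Memory k) (l : List A.Edge) : Fin k := l.foldl M.upd M.init

/-- The memory structure is chromatic: the update depends only on the state and the colour. -/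
def Memory.Chromatic {k : ℕ} (M : A.Memory k) : Prop :=
  ∀ m e e', e.2.1 = e'.2.1 → M.upd m e = M.upd m e'

/-- The strategy `S` is built on `M`: its move depends only on the last node and on the memory
state. -/
def Memory.Supports {k : ℕ} (M : A.Memory k) (S : A.Strat) : Prop :=
  ∀ u l u' l', A.IsPath u l → A.IsPath u' l' → A.last u l ∈ A.P → A.last u l = A.last u' l' →
    M.run l = M.run l' → S u l = S u' l'

end Arena

variable {C : Type}

/-- `GenMem(W) ≤ k`: in every arena Protagonist has an optimal strategy with `k` states of general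
memory. -/
def GenMemLE (W : Set (ℕ → C)) (k : ℕ) : Prop :=
  ∀ A : Arena C, ∃ (M : A.Memory k) (S : A.Strat), A.IsStrategy S ∧ M.Supports S ∧ A.Optimal W S

/-- `ChrMem(W) ≤ k`: in every arena Protagonist has an optimal strategy with `k` states of
chromatic memory. -/
def ChrMemLE (W : Set (ℕ → C)) (k : ℕ) : Prop :=
  ∀ A : Arena C, ∃ (M : A.Memory k) (S : A.Strat), M.Chromatic ∧ A.IsStrategy S ∧ M.Supports S ∧
    A.Optimal W S

/-! ### Paths and plays -/

namespace Arena

variable {A : Arena C}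

lemma pre_succ (ρ : ℕ → A.Edge) (n : ℕ) : A.pre ρ (n + 1) = A.pre ρ n ++ [ρ n] := by
  simp [pre, List.range_succ]

lemma pre_length (ρ : ℕ → A.Edge) (n : ℕ) : (A.pre ρ n).length = n := by simp [pre]

lemma last_append (u : A.V) (l : List A.Edge) (e : A.Edge) : A.last u (l ++ [e]) = e.2.2 := by
  simp [last]

lemma last_nil (u : A.V) : A.last u [] = u := rfl

/-- finite paths consistent with `S` -/
def CPath (A : Arena C) (S : A.Strat) (u : A.V) (l : List A.Edge) : Prop :=
  ∀ l' e, l' ++ [e] <+: l → e ∈ A.E ∧ e.1 = A.last u l' ∧ (A.last u l' ∈ A.P → e = S u l')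

lemma CPath.isPath {S : A.Strat} {u : A.V} {l : List A.Edge} (h : A.CPath S u l) : A.IsPath u l :=
  fun l' e he => ⟨(h l' e he).1, (h l' e he).2.1⟩

lemma CPath.nil (S : A.Strat) (u : A.V) : A.CPath S u [] := by
  intro l' e h
  simp at h

lemma CPath.mono {S : A.Strat} {u : A.V} {l l' : List A.Edge} (h : A.CPath S u l')
    (hl : l <+: l') : A.CPath S u l := fun l'' e he => h l'' e (he.trans hl)

lemma CPath.snoc {S : A.Strat} {u : A.V} {l : List A.Edge} {e : A.Edge} (h : A.CPath S u l)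
    (h1 : e ∈ A.E) (h2 : e.1 = A.last u l) (h3 : A.last u l ∈ A.P → e = S u l) :
    A.CPath S u (l ++ [e]) := by
  intro l' e' he
  rcases List.prefix_concat_iff.1 he with h4 | h4
  · obtain ⟨rfl, h5⟩ := List.append_inj' h4 rfl
    obtain rfl : e' = e := by simpa using h5
    exact ⟨h1, h2, h3⟩
  · exact h l' e' h4

lemma isPlay_last {u : A.V} {ρ : ℕ → A.Edge} (h : A.IsPlay u ρ) (n : ℕ) :
    A.last u (A.pre ρ n) = (ρ n).1 := by
  cases n with
  | zero => exact h.1.symm
  | succ n => rw [pre_succ, last_append, h.2.2 n]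

lemma cpath_pre {S : A.Strat} {u : A.V} {ρ : ℕ → A.Edge} (h : A.IsPlay u ρ)
    (h' : A.Consistent S u ρ) (n : ℕ) : A.CPath S u (A.pre ρ n) := by
  induction n with
  | zero => exact CPath.nil S u
  | succ n ih =>
    rw [pre_succ]
    refine ih.snoc (h.2.1 n) (isPlay_last h n).symm fun h1 => ?_
    rw [isPlay_last h n] at h1
    exact h' n h1

lemma play_of_cpath {S : A.Strat} {u : A.V} {ρ : ℕ → A.Edge} (h : ∀ n, A.CPath S u (A.pre ρ n)) :
    A.IsPlay u ρ ∧ A.Consistent S u ρ := by
  have h1 : ∀ n, ρ n ∈ A.E ∧ (ρ n).1 = A.last u (A.pre ρ n) ∧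
      (A.last u (A.pre ρ n) ∈ A.P → ρ n = S u (A.pre ρ n)) := by
    intro n
    refine h (n + 1) (A.pre ρ n) (ρ n) ?_
    rw [pre_succ]
  refine ⟨⟨(h1 0).2.1, fun n => (h1 n).1, fun n => ?_⟩, fun n hn => ?_⟩
  · rw [(h1 (n+1)).2.1, pre_succ, last_append]
  · apply (h1 n).2.2
    rw [← (h1 n).2.1]
    exact hn

/-- An increasing sequence of consistent paths has a limit play. -/
lemma exists_limit {S : A.Strat} {u : A.V} (h : ℕ → List A.Edge) (hc : ∀ n, A.CPath S u (h n))
    (hp : ∀ n, h n <+: h (n + 1)) (hlen : ∀ n, n ≤ (h n).length) :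
    ∃ ρ, A.IsPlay u ρ ∧ A.Consistent S u ρ ∧ ∀ n, A.pre ρ (h n).length = h n := by
  have hmono : ∀ m n, m ≤ n → h m <+: h n := by
    intro m n hmn
    induction n, hmn using Nat.le_induction with
    | base => exact List.prefix_rfl
    | succ n _ ih => exact ih.trans (hp n)
  let ρ : ℕ → A.Edge := fun n => (h (n + 1))[n]'(hlen (n + 1))
  have hρ : ∀ n m (hm : m < (h n).length), (h n)[m] = ρ m := by
    intro n m hm
    rcases le_total n (m + 1) with h1 | h1
    · exact (hmono n (m+1) h1).getElem hm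
    · exact ((hmono (m+1) n h1).getElem (hlen (m+1))).symm
  have hpre : ∀ n, A.pre ρ (h n).length = h n := by
    intro n
    apply List.ext_getElem
    · exact pre_length _ _
    · intro m h1 h2
      rw [hρ n m h2]
      simp [pre]
  have hall : ∀ n, A.CPath S u (A.pre ρ n) := by
    intro n
    refine (hc n).mono ?_
    rw [← hpre n]
    have h1 : List.range n <+: List.range (h n).length := by
      rw [List.prefix_iff_eq_take]
      simp [List.take_range, hlen n]
    exact h1.map ρ
  obtain ⟨h1, h2⟩ := play_of_cpath hall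
  exact ⟨ρ, h1, h2, hpre⟩

lemma CPath.exists_snoc {S : A.Strat} (hS : A.IsStrategy S) {u : A.V} {l : List A.Edge}
    (h : A.CPath S u l) : ∃ e, A.CPath S u (l ++ [e]) := by
  by_cases hP : A.last u l ∈ A.P
  · obtain ⟨h1, h2⟩ := hS u l h.isPath hP
    exact ⟨S u l, h.snoc h1 h2 fun _ => rfl⟩
  · obtain ⟨c, w, hcw⟩ := A.out (A.last u l)
    exact ⟨(A.last u l, c, w), h.snoc hcw rfl fun h => absurd h hP⟩

/-- Each consistent path extends to a consistent play. -/
lemma CPath.exists_play {S : A.Strat} (hS : A.IsStrategy S) {u : A.V} {l : List A.Edge}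
    (h : A.CPath S u l) : ∃ ρ, A.IsPlay u ρ ∧ A.Consistent S u ρ ∧ A.pre ρ l.length = l := by
  let T := {l : List A.Edge // A.CPath S u l}
  have hnext : ∀ t : T, ∃ t' : T, ∃ e, t'.1 = t.1 ++ [e] := by
    intro t
    obtain ⟨e, he⟩ := t.2.exists_snoc hS
    exact ⟨⟨_, he⟩, e, rfl⟩
  choose f hf using hnext
  let g : ℕ → T := fun n => f^[n] ⟨l, h⟩
  have hg : ∀ n, g (n + 1) = f (g n) := fun n => Function.iterate_succ_apply' f n _
  have hlen : ∀ n, (g n).1.length = l.length + n := by
    intro n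
    induction n with
    | zero => rfl
    | succ n ih =>
      obtain ⟨e, he⟩ := hf (g n)
      rw [hg, he, List.length_append, ih]
      simp; ring
  obtain ⟨ρ, h1, h2, h3⟩ := exists_limit (S := S) (u := u) (fun n => (g n).1) (fun n => (g n).2)
    (fun n => by
      rw [hg]
      obtain ⟨e, he⟩ := hf (g n)
      rw [he]
      exact List.prefix_append _ _)
    (fun n => by rw [hlen]; omega)
  exact ⟨ρ, h1, h2, h3 0⟩

end Arena

/-! ### Resource systems -/

section core

variable {U : Type} (step : U → C → Option U)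

/-- The set `I` of pairs (node, resource) is invariant. -/
def Inv (A : Arena C) (I : Set (A.V × U)) : Prop :=
  ∀ p ∈ I, (p.1 ∈ A.P → ∃ c w, (p.1, c, w) ∈ A.E ∧ ∃ u', step p.2 c = some u' ∧ (w, u') ∈ I) ∧
    (p.1 ∉ A.P → ∀ c w, (p.1, c, w) ∈ A.E → ∃ u', step p.2 c = some u' ∧ (w, u') ∈ I)

/-- The resources that suffice at the node `v`. -/
def Zs (A : Arena C) (v : A.V) : Set U := {u | ∃ I, Inv step A I ∧ (v, u) ∈ I}

variable {step}

lemma Zs_P {A : Arena C} {v : A.V} {u : U} (h : u ∈ Zs step A v) (hv : v ∈ A.P) :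
    ∃ c w, (v, c, w) ∈ A.E ∧ ∃ u', step u c = some u' ∧ u' ∈ Zs step A w := by
  obtain ⟨I, hI, hvu⟩ := h
  obtain ⟨c, w, h1, u', h2, h3⟩ := (hI _ hvu).1 hv
  exact ⟨c, w, h1, u', h2, I, hI, h3⟩

lemma Zs_A {A : Arena C} {v : A.V} {u : U} (h : u ∈ Zs step A v) (hv : v ∉ A.P) {c : C} {w : A.V}
    (he : (v, c, w) ∈ A.E) : ∃ u', step u c = some u' ∧ u' ∈ Zs step A w := by
  obtain ⟨I, hI, hvu⟩ := h
  obtain ⟨u', h2, h3⟩ := (hI _ hvu).2 hv c w he
  exact ⟨u', h2, I, hI, h3⟩

lemma Zs_mono {le : U → U → Prop} (hmono : ∀ u u' c w, le u u' → step u c = some w →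
    ∃ w', step u' c = some w' ∧ le w w') {A : Arena C} {v : A.V} {u u' : U}
    (h : u ∈ Zs step A v) (hu : le u u') : u' ∈ Zs step A v := by
  refine ⟨{p | ∃ u, u ∈ Zs step A p.1 ∧ le u p.2}, ?_, u, h, hu⟩
  rintro ⟨v, x⟩ ⟨y, hy, hyx⟩
  refine ⟨fun hv => ?_, fun hv c w he => ?_⟩
  · obtain ⟨c, w, h1, y', h2, h3⟩ := Zs_P hy hv
    obtain ⟨x', h4, h5⟩ := hmono _ _ _ _ hyx h2
    exact ⟨c, w, h1, x', h4, y', h3, h5⟩
  · obtain ⟨y', h2, h3⟩ := Zs_A hy hv he
    obtain ⟨x', h4, h5⟩ := hmono _ _ _ _ hyx h2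
    exact ⟨x', h4, y', h3, h5⟩

/-- The core of the upper bounds: a strategy with `k` states of general memory that keeps track of
a virtual resource. -/
theorem core {le : U → U → Prop} {k : ℕ} (G : Set U → Fin k → U)
    (hG1 : ∀ X : Set U, X.Nonempty → ∀ j, G X j ∈ X) (hG2 : ∀ X : Set U, ∀ x ∈ X, ∃ j, le (G X j) x)
    (A : Arena C) (m0 : Fin k) : ∃ (M : A.Memory k) (S : A.Strat), A.IsStrategy S ∧ M.Supports S ∧
      ∀ u ρ, A.IsPlay u ρ → A.Consistent S u ρ → (Zs step A u).Nonempty →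
        ∃ x : ℕ → U, x 0 = G (Zs step A u) m0 ∧ x 0 ∈ Zs step A u ∧
          ∀ n, ∃ u', step (x n) (ρ n).2.1 = some u' ∧ le (x (n + 1)) u' := by
  classical
  have hσ : ∀ v (m : Fin k), ∃ e : A.Edge, e ∈ A.E ∧ e.1 = v ∧ (v ∈ A.P → (Zs step A v).Nonempty →
      ∃ u', step (G (Zs step A v) m) e.2.1 = some u' ∧ u' ∈ Zs step A e.2.2) := by
    intro v m
    by_cases h : v ∈ A.P ∧ (Zs step A v).Nonempty
    · obtain ⟨c, w, h1, h2⟩ := Zs_P (hG1 _ h.2 m) h.1
      exact ⟨(v, c, w), h1, rfl, fun _ _ => h2⟩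
    · obtain ⟨c, w, h1⟩ := A.out v
      exact ⟨(v, c, w), h1, rfl, fun h2 h3 => absurd ⟨h2, h3⟩ h⟩
  choose σ hσ1 hσ2 hσ3 using hσ
  have hu : ∀ (m : Fin k) (e : A.Edge), ∃ m' : Fin k, ∀ u', step (G (Zs step A e.1) m) e.2.1 = some u' →
      u' ∈ Zs step A e.2.2 → le (G (Zs step A e.2.2) m') u' := by
    intro m e
    by_cases h : ∃ u', step (G (Zs step A e.1) m) e.2.1 = some u' ∧ u' ∈ Zs step A e.2.2
    · obtain ⟨u', h1, h2⟩ := h
      obtain ⟨j, hj⟩ := hG2 _ _ h2
      refine ⟨j, fun u'' h3 h4 => ?_⟩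
      rw [h1] at h3
      obtain rfl := Option.some.inj h3
      exact hj
    · exact ⟨m, fun u' h1 h2 => absurd ⟨u', h1, h2⟩ h⟩
  choose upd hupd using hu
  let M : A.Memory k := ⟨m0, upd⟩
  let S : A.Strat := fun u l => σ (A.last u l) (M.run l)
  refine ⟨M, S, fun u l _ _ => ⟨hσ1 _ _, hσ2 _ _⟩, ?_, ?_⟩
  · intro u l u' l' _ _ _ h1 h2
    simp only [S, h1, h2]
  · intro u ρ hplay hcons hne
    let m : ℕ → Fin k := fun n => M.run (A.pre ρ n)
    have hm : ∀ n, m (n + 1) = upd (m n) (ρ n) := by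
      intro n
      simp only [m, Arena.pre_succ, Arena.Memory.run, List.foldl_append, List.foldl_cons,
        List.foldl_nil, M]
    have key : ∀ n, (Zs step A (ρ n).1).Nonempty →
        ∃ u', step (G (Zs step A (ρ n).1) (m n)) (ρ n).2.1 = some u' ∧ u' ∈ Zs step A (ρ n).2.2 := by
      intro n hn
      by_cases hP : (ρ n).1 ∈ A.P
      · have h1 : ρ n = σ (ρ n).1 (m n) := by
          have h2 := hcons n hP
          simp only [S, Arena.isPlay_last hplay n] at h2
          exact h2
        have h3 := hσ3 (ρ n).1 (m n) hP hn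
        rw [← h1] at h3
        exact h3
      · exact Zs_A (hG1 _ hn (m n)) hP (hplay.2.1 n)
    have hnon : ∀ n, (Zs step A (ρ n).1).Nonempty := by
      intro n
      induction n with
      | zero => rw [hplay.1]; exact hne
      | succ n ih =>
        obtain ⟨u', _, h2⟩ := key n ih
        rw [hplay.2.2 n]
        exact ⟨u', h2⟩
    refine ⟨fun n => G (Zs step A (ρ n).1) (m n), ?_, ?_, fun n => ?_⟩
    · simp only [hplay.1]; rfl
    · simp only [hplay.1]
      exact hG1 _ hne _
    · obtain ⟨u', h1, h2⟩ := key n (hnon n)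
      refine ⟨u', h1, ?_⟩
      have h3 := hupd (m n) (ρ n) u' h1 h2
      simp only [hm, hplay.2.2 n]
      exact h3

end core

end Pool.Agent.GameMem200
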