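import Pool.Agent.GameMem200.Auto

/-!
# The shift-invariant condition
-/

open Set

namespace Pool.Agent.GameMem200

/-- The five colours: those of `Col` and the reset letter `none`. -/
abbrev Col5 : Type := Option Col

/-- The transition function with resets. -/
def dl5 (S : ℕ → Bool) (q : Q) : Col5 → Q
  | none => Q.L 0 false
  | some c => dl S q c

/-- The state after the first `n` colours of `s`, starting from `q`. -/
def st5 (S : ℕ → Bool) (q : Q) (s : ℕ → Col5) : ℕ → Q
  | 0 => q
  | n + 1 => dl5 S (st5 S q s n) (s n)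

/-- The reset letter is read at time `n` in the state `dead`. -/
def Bad (S : ℕ → Bool) (q : Q) (s : ℕ → Col5) (n : ℕ) : Prop := st5 S q s n = Q.dead ∧ s n = none

/-- The winning condition: only finitely many bad resets. -/
def W5 (S : ℕ → Bool) : Set (ℕ → Col5) := {s | {n | Bad S (Q.L 0 false) s n}.Finite}

/-- Concatenation of a finite word and an infinite word. -/
def app {C : Type} (x : List C) (y : ℕ → C) (n : ℕ) : C :=
  if h : n < x.length then x[n] else y (n - x.length)

/-- `W` is invariant under adding and removing finite initial words. -/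
def ShiftInvariant {C : Type} (W : Set (ℕ → C)) : Prop := ∀ x y, app x y ∈ W ↔ y ∈ W

lemma bad_finite (S : ℕ → Bool) (z : ℕ → Col5) (q q' : Q) (h : {n | Bad S q z n}.Finite) :
    {n | Bad S q' z n}.Finite := by
  by_cases hz : ∃ n0, z n0 = none
  · obtain ⟨n0, hn0⟩ := hz
    have hst : ∀ n, n0 < n → st5 S q z n = st5 S q' z n := by
      intro n hn
      obtain ⟨j, rfl⟩ := Nat.exists_eq_add_of_lt hn
      induction j with
      | zero => simp only [st5, hn0, dl5]
      | succ j ih =>
        have h1 := ih (by omega)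
        show dl5 S (st5 S q z (n0 + j + 1)) (z (n0 + j + 1)) =
          dl5 S (st5 S q' z (n0 + j + 1)) (z (n0 + j + 1))
        rw [h1]
    refine (h.union (Set.finite_le_nat n0)).subset ?_
    intro n hn
    rcases le_or_gt n n0 with h1 | h1
    · exact Or.inr h1
    · left
      refine ⟨?_, hn.2⟩
      rw [hst n h1]; exact hn.1
  · push Not at hz
    refine (Set.finite_empty).subset ?_
    intro n hn
    exact absurd hn.2 (hz n)

lemma st5_shift (S : ℕ → Bool) (q : Q) (z z' : ℕ → Col5) (hz : ∀ n, z' (n + 1) = z n) (n : ℕ) :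
    st5 S q z' (n + 1) = st5 S (dl5 S q (z' 0)) z n := by
  induction n with
  | zero => rfl
  | succ n ih => rw [st5, ih, hz, st5]

lemma shiftInvariant_W5 (S : ℕ → Bool) : ShiftInvariant (W5 S) := by
  intro x y
  induction x with
  | nil =>
    have : app [] y = y := by
      funext n
      simp [app]
    rw [this]
  | cons c x ih =>
    rw [← ih]
    set z := app x y with hz
    set z' := app (c :: x) y with hz'
    have hzz : ∀ n, z' (n + 1) = z n := by
      intro n
      simp only [hz, hz', app, List.length_cons]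
      by_cases h : n < x.length
      · rw [dif_pos h, dif_pos (by omega)]; rfl
      · rw [dif_neg h, dif_neg (by omega)]
        congr 1
        omega
    have hbad : ∀ n, Bad S (Q.L 0 false) z' (n + 1) ↔ Bad S (dl5 S (Q.L 0 false) (z' 0)) z n := by
      intro n
      simp only [Bad]
      rw [st5_shift S _ z z' hzz, hzz]
    have h1 : {n | Bad S (Q.L 0 false) z' n}.Finite ↔
        {n | Bad S (dl5 S (Q.L 0 false) (z' 0)) z n}.Finite := by
      constructor
      · intro h
        have h2 : {n | Bad S (dl5 S (Q.L 0 false) (z' 0)) z n} =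
            Nat.succ ⁻¹' {n | Bad S (Q.L 0 false) z' n} := by
          ext n
          exact (hbad n).symm
        rw [h2]
        exact h.preimage (Nat.succ_injective.injOn)
      · intro h
        refine ((h.image Nat.succ).union (Set.finite_singleton 0)).subset ?_
        intro n hn
        cases n with
        | zero => right; rfl
        | succ n => left; exact ⟨n, (hbad n).1 hn, rfl⟩
    constructor
    · intro h
      exact bad_finite S z _ _ (h1.1 h)
    · intro h
      exact h1.2 (bad_finite S z _ _ h)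

section

variable {A : Arena Col5}

/-- the state of the automaton after a finite path -/
def runQ5 (S : ℕ → Bool) (l : List A.Edge) : Q := l.foldl (fun q e => dl5 S q e.2.1) (Q.L 0 false)

lemma runQ5_append (S : ℕ → Bool) (l : List A.Edge) (e : A.Edge) :
    runQ5 S (l ++ [e]) = dl5 S (runQ5 S l) e.2.1 := by simp [runQ5]

lemma runQ5_pre (S : ℕ → Bool) (ρ : ℕ → A.Edge) (n : ℕ) :
    runQ5 S (A.pre ρ n) = st5 S (Q.L 0 false) (fun n => (ρ n).2.1) n := by
  induction n with
  | zero => rfl
  | succ n ih => rw [Arena.pre_succ, runQ5_append, ih]; rfl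

end

/-- the resource system: a bound for the number of bad resets, and a state -/
noncomputable def step5 (S : ℕ → Bool) : ℕ × Q → Col5 → Option (ℕ × Q)
  | (κ, q), some c => some (κ, dl S q c)
  | (κ, q), none => open Classical in
      if q = Q.dead then (if κ = 0 then none else some (κ - 1, Q.L 0 false))
      else some (κ, Q.L 0 false)

/-- the lexicographic order -/
def le5 (u u' : ℕ × Q) : Prop := u.1 < u'.1 ∨ (u.1 = u'.1 ∧ qle u.2 u'.2)

lemma le5_mono (S : ℕ → Bool) : ∀ (u u' : ℕ × Q) (c : Col5) (w : ℕ × Q), le5 u u' →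
    step5 S u c = some w → ∃ w', step5 S u' c = some w' ∧ le5 w w' := by
  rintro ⟨κ, q⟩ ⟨κ', q'⟩ c w h hw
  cases c with
  | some c =>
    simp only [step5, Option.some.injEq] at hw
    subst hw
    refine ⟨(κ', dl S q' c), rfl, ?_⟩
    rcases h with h | ⟨h1, h2⟩
    · exact Or.inl h
    · exact Or.inr ⟨h1, dl_mono S h2 c⟩
  | none =>
    simp only [step5] at hw ⊢
    simp only [le5] at h
    by_cases hq' : q' = Q.dead
    · rw [if_pos hq']
      by_cases hq : q = Q.dead
      · rw [if_pos hq] at hw
        by_cases hκ : κ = 0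
        · rw [if_pos hκ] at hw; cases hw
        · rw [if_neg hκ] at hw
          obtain rfl := Option.some.inj hw
          rw [if_neg (by omega)]
          refine ⟨_, rfl, ?_⟩
          simp only [le5]
          rcases h with h | ⟨h1, h2⟩
          · left; omega
          · right; exact ⟨by omega, qle_refl _⟩
      · rw [if_neg hq] at hw
        obtain rfl := Option.some.inj hw
        rcases h with h | ⟨h1, h2⟩
        · rw [if_neg (by omega)]
          refine ⟨_, rfl, ?_⟩
          simp only [le5]
          rcases (show κ ≤ κ' - 1 by omega).lt_or_eq with h3 | h3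
          · left; exact h3
          · right; exact ⟨h3, qle_refl _⟩
        · rw [hq'] at h2
          exact absurd (qle_dead h2) hq
    · rw [if_neg hq']
      refine ⟨_, rfl, ?_⟩
      by_cases hq : q = Q.dead
      · rw [if_pos hq] at hw
        by_cases hκ : κ = 0
        · rw [if_pos hκ] at hw; cases hw
        · rw [if_neg hκ] at hw
          obtain rfl := Option.some.inj hw
          simp only [le5]
          left
          omega
      · rw [if_neg hq] at hw
        obtain rfl := Option.some.inj hw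
        simp only [le5]
        rcases h with h | ⟨h1, h2⟩
        · left; exact h
        · right; exact ⟨h1, qle_refl _⟩

lemma gen5 (X : Set (ℕ × Q)) (hX : X.Nonempty) : ∃ g : Fin 3 → ℕ × Q, (∀ j, g j ∈ X) ∧
    (∀ x ∈ X, ∃ j, le5 (g j) x) := by
  classical
  have hex : ∃ κ, ∃ q, (κ, q) ∈ X := by
    obtain ⟨⟨κ, q⟩, h⟩ := hX
    exact ⟨κ, q, h⟩
  set κ0 := Nat.find hex with hκ0
  have h1 : {q | (κ0, q) ∈ X}.Nonempty := Nat.find_spec hex
  obtain ⟨g, hg1, hg2, -⟩ := gen3 _ h1
  refine ⟨fun j => (κ0, g j), hg1, ?_⟩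
  rintro ⟨κ, q⟩ hx
  rcases (Nat.find_min' hex ⟨q, hx⟩).lt_or_eq with h | h
  · exact ⟨0, Or.inl h⟩
  · rw [← hκ0] at h
    obtain ⟨j, hj⟩ := hg2 q (by show (κ0, q) ∈ X; rw [h]; exact hx)
    exact ⟨j, Or.inr ⟨h, hj⟩⟩

/-- If some strategy wins from `u`, then some resource suffices at `u`. -/
lemma win_cobuchi {S : ℕ → Bool} {A : Arena Col5} {T : A.Strat} (hT : A.IsStrategy T) {u : A.V}
    (hw : A.Wins (W5 S) T u) : (Zs (step5 S) A u).Nonempty := by
  classical
  have := A.finV
  by_contra hu
  rw [Set.not_nonempty_iff_eq_empty] at hu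
  -- a uniform bound
  obtain ⟨κ0, hκ0⟩ : ∃ κ0 : ℕ, ∀ v, Zs (step5 S) A v ≠ ∅ → (κ0, Q.L 0 false) ∈ Zs (step5 S) A v := by
    have h1 : ∀ v : A.V, ∃ κ : ℕ, Zs (step5 S) A v ≠ ∅ → (κ, Q.L 0 false) ∈ Zs (step5 S) A v := by
      intro v
      by_cases h : Zs (step5 S) A v = ∅
      · exact ⟨0, fun h' => absurd h h'⟩
      · obtain ⟨⟨κ, q⟩, hx⟩ := Set.nonempty_iff_ne_empty.2 h
        exact ⟨κ + 1, fun _ => Zs_mono (le5_mono S) hx (Or.inl (Nat.lt_succ_self κ))⟩
    choose κ hκ using h1
    obtain ⟨B, hB⟩ := (Set.finite_range κ).bddAbove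
    refine ⟨B + 1, fun v hv => Zs_mono (le5_mono S) (hκ v hv) (Or.inl ?_)⟩
    have := hB ⟨v, rfl⟩
    simp only
    omega
  -- extension by a bad reset
  have hext : ∀ l, A.CPath T u l → Zs (step5 S) A (A.last u l) = ∅ →
      ∃ l', l <+: l' ∧ A.CPath T u l' ∧ Zs (step5 S) A (A.last u l') = ∅ ∧
        ∃ l1 e, l <+: l1 ∧ l1 ++ [e] <+: l' ∧ runQ5 S l1 = Q.dead ∧ e.2.1 = none := by
    intro l hl hlZ
    by_contra hcon
    push Not at hcon
    -- no bad reset so far
    let nb : List A.Edge → Prop := fun l' => ∀ l1 e, l <+: l1 → l1 ++ [e] <+: l' →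
      runQ5 S l1 = Q.dead → e.2.1 ≠ none
    have hnb : ∀ l' e, l <+: l' → nb l' → ¬ (runQ5 S l' = Q.dead ∧ e.2.1 = none) →
        nb (l' ++ [e]) := by
      intro l' e _ h2 h3 l1 e1 h4 h5 h6 h7
      rcases List.prefix_concat_iff.1 h5 with h8 | h8
      · obtain ⟨rfl, h9⟩ := List.append_inj' h8 rfl
        obtain rfl : e1 = e := by simpa using h9
        exact h3 ⟨h6, h7⟩
      · exact h2 l1 e1 h4 h8 h6 h7
    have hI : Inv (step5 S) A ({p | ∃ l', l <+: l' ∧ A.CPath T u l' ∧ A.last u l' = p.1 ∧ nb l' ∧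
        p.2 = (κ0 + 1, runQ5 S l')} ∪ {p | p.2 ∈ Zs (step5 S) A p.1}) := by
      rintro ⟨v, x⟩ hvx
      rcases hvx with ⟨l', h1, h2, h3, h4, h5⟩ | hvx
      · simp only at h3 h5
        subst h3 h5
        -- the transition along an edge `e` with `l' ++ [e]` consistent
        have hgo : ∀ e : A.Edge, A.CPath T u (l' ++ [e]) → ∃ u',
            step5 S (κ0 + 1, runQ5 S l') e.2.1 = some u' ∧ (e.2.2, u') ∈
            ({p | ∃ l', l <+: l' ∧ A.CPath T u l' ∧ A.last u l' = p.1 ∧ nb l' ∧
              p.2 = (κ0 + 1, runQ5 S l')} ∪ {p | p.2 ∈ Zs (step5 S) A p.1}) := by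
          intro e he
          by_cases hbad : runQ5 S l' = Q.dead ∧ e.2.1 = none
          · refine ⟨(κ0, Q.L 0 false), ?_, Or.inr ?_⟩
            · rw [hbad.2, hbad.1, step5, if_pos rfl, if_neg (by omega)]
              rfl
            · have h6 : Zs (step5 S) A (A.last u (l' ++ [e])) ≠ ∅ := by
                intro h7
                exact hcon (l' ++ [e]) (h1.trans (List.prefix_append _ _)) he h7 l' e h1
                  List.prefix_rfl hbad.1 hbad.2
              rw [Arena.last_append] at h6
              exact hκ0 _ h6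
          · refine ⟨(κ0 + 1, runQ5 S (l' ++ [e])), ?_, Or.inl ⟨l' ++ [e],
              h1.trans (List.prefix_append _ _), he, Arena.last_append _ _ _,
              hnb l' e h1 h4 hbad, rfl⟩⟩
            rw [runQ5_append]
            cases hc : e.2.1 with
            | some c => rfl
            | none =>
              rw [step5, if_neg (fun h => hbad ⟨h, hc⟩)]
              rfl
        refine ⟨fun hP => ?_, fun hP c w he => ?_⟩
        · obtain ⟨h6, h7⟩ := hT u l' h2.isPath hP
          obtain ⟨u', h8, h9⟩ := hgo _ (h2.snoc h6 h7 fun _ => rfl)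
          refine ⟨(T u l').2.1, (T u l').2.2, ?_, u', h8, h9⟩
          have : (A.last u l', (T u l').2.1, (T u l').2.2) = T u l' := by rw [← h7]
          rw [this]; exact h6
        · exact hgo (A.last u l', c, w) (h2.snoc he rfl fun h => absurd h hP)
      · refine ⟨fun hP => ?_, fun hP c w he => ?_⟩
        · obtain ⟨c, w, h1, u', h2, h3⟩ := Zs_P hvx hP
          exact ⟨c, w, h1, u', h2, Or.inr h3⟩
        · obtain ⟨u', h2, h3⟩ := Zs_A hvx hP he
          exact ⟨u', h2, Or.inr h3⟩
    have hmem : (κ0 + 1, runQ5 S l) ∈ Zs (step5 S) A (A.last u l) :=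
      ⟨_, hI, Or.inl ⟨l, List.prefix_rfl, hl, rfl, fun l1 e h1 h2 => by
        have h3 := h1.length_le
        have h4 := h2.length_le
        rw [List.length_append, List.length_singleton] at h4
        omega, rfl⟩⟩
    rw [hlZ] at hmem
    exact hmem
  -- iterate
  let Tt := {l : List A.Edge // A.CPath T u l ∧ Zs (step5 S) A (A.last u l) = ∅}
  have hnext : ∀ t : Tt, ∃ t' : Tt, t.1 <+: t'.1 ∧ ∃ l1 e, t.1 <+: l1 ∧ l1 ++ [e] <+: t'.1 ∧
      runQ5 S l1 = Q.dead ∧ e.2.1 = none := by
    rintro ⟨l, h1, h2⟩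
    obtain ⟨l', h3, h4, h5, h6⟩ := hext l h1 h2
    exact ⟨⟨l', h4, h5⟩, h3, h6⟩
  choose f hf1 hf2 using hnext
  let g : ℕ → Tt := fun n => f^[n] ⟨[], Arena.CPath.nil T u, hu⟩
  have hg : ∀ n, g (n + 1) = f (g n) := fun n => Function.iterate_succ_apply' f n _
  have hlen : ∀ n, n ≤ (g n).1.length := by
    intro n
    induction n with
    | zero => exact Nat.zero_le _
    | succ n ih =>
      obtain ⟨l1, e, h1, h2, -, -⟩ := hf2 (g n)
      have h3 := h1.length_le
      have h4 := h2.length_le
      rw [List.length_append, List.length_singleton, ← hg] at h4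
      omega
  obtain ⟨ρ, h1, h2, h3⟩ := Arena.exists_limit (S := T) (u := u) (fun n => (g n).1)
    (fun n => (g n).2.1) (fun n => by rw [hg]; exact hf1 (g n)) hlen
  have hfin := hw ρ h1 h2
  apply Set.infinite_of_not_bddAbove ?_ hfin
  rintro ⟨B, hB⟩
  obtain ⟨l1, e, h4, h5, h6, h7⟩ := hf2 (g (B + 1))
  rw [← hg, ← h3 (B + 2)] at h5
  have h8 : l1 ++ [e] = A.pre ρ (l1.length + 1) := by
    have h9 := List.prefix_iff_eq_take.1 h5
    rw [List.length_append, List.length_singleton] at h9
    have h10 : l1.length + 1 ≤ (g (B + 2)).1.length := by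
      have := h5.length_le
      rw [Arena.pre_length] at this
      simpa using this
    rw [h9, Arena.pre, ← List.map_take, List.take_range, min_eq_left h10]
    rfl
  rw [Arena.pre_succ] at h8
  obtain ⟨h9, h10⟩ := List.append_inj' h8 rfl
  obtain rfl : e = ρ l1.length := by simpa using h10
  have hbad : Bad S (Q.L 0 false) (fun n => (ρ n).2.1) l1.length := by
    refine ⟨?_, h7⟩
    rw [← runQ5_pre, ← h9]
    exact h6
  have h11 := hB hbad
  have h12 := h4.length_le
  have h13 := hlen (B + 1)
  omega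

/-- `GenMem ≤ 3` for the shift-invariant condition. -/
theorem genMem_W5 (S : ℕ → Bool) : GenMemLE (W5 S) 3 := by
  classical
  intro A
  let G : Set (ℕ × Q) → Fin 3 → ℕ × Q := fun X =>
    if h : X.Nonempty then (gen5 X h).choose else fun _ => (0, Q.dead)
  have hG : ∀ X : Set (ℕ × Q), X.Nonempty → (∀ j, G X j ∈ X) ∧ (∀ x ∈ X, ∃ j, le5 (G X j) x) := by
    intro X hX
    simp only [G, dif_pos hX]
    exact (gen5 X hX).choose_spec
  obtain ⟨M, T, h1, h2, h3⟩ := core (step := step5 S) (le := le5) G (fun X hX => (hG X hX).1)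
    (fun X x hx => (hG X ⟨x, hx⟩).2 x hx) A 0
  refine ⟨M, T, h1, h2, ?_⟩
  rintro u ⟨T', hT', hw⟩ ρ hρ hcons
  obtain ⟨x, -, -, hx⟩ := h3 u ρ hρ hcons (win_cobuchi hT' hw)
  set s : ℕ → Col5 := fun n => (ρ n).2.1 with hs
  have hstep1 : ∀ (v v' : ℕ × Q) (c : Col5), step5 S v c = some v' → v'.1 ≤ v.1 := by
    rintro ⟨κ, q⟩ v' c h
    cases c with
    | some c =>
      simp only [step5, Option.some.injEq] at h
      subst h
      exact le_rfl
    | none =>
      simp only [step5] at h
      split_ifs at h with h4 h5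
      · obtain rfl := Option.some.inj h
        exact Nat.sub_le _ _
      · obtain rfl := Option.some.inj h
        exact le_rfl
  have hanti : ∀ n, (x (n + 1)).1 ≤ (x n).1 := by
    intro n
    obtain ⟨u', h4, h5⟩ := hx n
    have h6 := hstep1 _ _ _ h4
    rcases h5 with h5 | ⟨h5, -⟩ <;> omega
  have hanti' : Antitone fun n => (x n).1 := antitone_nat_of_succ_le hanti
  -- eventually constant
  obtain ⟨N, hN⟩ : ∃ N, ∀ n, N ≤ n → (x n).1 = (x N).1 := by
    have hex : ∃ κ, ∃ n, (x n).1 = κ := ⟨_, 0, rfl⟩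
    obtain ⟨N, hN⟩ := Nat.find_spec hex
    refine ⟨N, fun n hn => le_antisymm (hanti' hn) ?_⟩
    rw [hN]
    exact Nat.find_min' hex ⟨n, rfl⟩
  have hvirt : ∀ n, N ≤ n → ¬ ((x n).2 = Q.dead ∧ s n = none) ∧
      qle (x (n + 1)).2 (dl5 S (x n).2 (s n)) := by
    intro n hn
    obtain ⟨u', h4, h5⟩ := hx n
    have h6 := hstep1 _ _ _ h4
    have h7 : (x (n + 1)).1 = (x n).1 := by rw [hN (n+1) (by omega), hN n hn]
    have h8 : u'.1 = (x n).1 := by
      rcases h5 with h5 | ⟨h5, -⟩ <;> omega
    have h9 : qle (x (n + 1)).2 u'.2 := by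
      rcases h5 with h5 | ⟨-, h5⟩
      · omega
      · exact h5
    change step5 S (x n) (s n) = some u' at h4
    rcases hxn : x n with ⟨κ, q⟩
    rw [hxn] at h4 h8
    cases hc : s n with
    | some c =>
      rw [hc] at h4
      simp only [step5, Option.some.injEq] at h4
      subst h4
      exact ⟨fun h => by simp at h, h9⟩
    | none =>
      rw [hc] at h4
      simp only [step5] at h4
      split_ifs at h4 with h10 h11
      · obtain rfl := Option.some.inj h4
        simp only at h8
        omega
      · obtain rfl := Option.some.inj h4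
        exact ⟨fun h => h10 h.1, h9⟩
  show {n | Bad S (Q.L 0 false) s n}.Finite
  by_cases hr : ∃ t, N ≤ t ∧ s t = none
  · obtain ⟨t, ht1, ht2⟩ := hr
    have hle : ∀ j, qle (x (t + 1 + j)).2 (st5 S (Q.L 0 false) s (t + 1 + j)) := by
      intro j
      induction j with
      | zero =>
        have h4 := (hvirt t ht1).2
        rw [ht2] at h4
        rw [add_zero, st5, ht2]
        exact h4
      | succ j ih =>
        have h4 := (hvirt (t + 1 + j) (by omega)).2
        rw [← add_assoc, st5]
        refine qle_trans h4 ?_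
        cases hc : s (t + 1 + j) with
        | some c => exact dl_mono S ih c
        | none => exact qle_refl _
    refine (Set.finite_le_nat t).subset ?_
    intro n hn
    by_contra hcon
    have hcon' : t < n := not_le.1 hcon
    obtain ⟨j, hj⟩ := Nat.exists_eq_add_of_le (show t + 1 ≤ n by omega)
    have h4 := hle j
    rw [← hj, hn.1] at h4
    exact (hvirt n (by omega)).1 ⟨qle_dead h4, hn.2⟩
  · push Not at hr
    refine (Set.finite_lt_nat N).subset ?_
    intro n hn
    by_contra hcon
    exact hr n (not_lt.1 hcon) hn.2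

end Pool.Agent.GameMem200
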