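import Pool.Agent.GameMem200.Cobuchi

/-!
# The lower bound for the shift-invariant condition
-/

open Set

namespace Pool.Agent.GameMem200

/-- The loop arena: nodes `0, …, 2i+2`; Antagonist chooses `i` letters, Protagonist (at the node
`i`) chooses a test letter, then `i + 1` letters `a` follow, and then a reset leads back to `0`. -/
def loopArena (i : ℕ) : Arena Col5 where
  V := Fin (2 * i + 3)
  finV := inferInstance
  neV := ⟨0⟩
  P := {x | x.val = i}
  E := {e | (e.1.val < i ∧ (∃ x, e.2.1 = some (false, x)) ∧ e.2.2.val = e.1.val + 1) ∨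
    (e.1.val = i ∧ (∃ x, e.2.1 = some (true, x)) ∧ e.2.2.val = e.1.val + 1) ∨
    (i < e.1.val ∧ e.1.val < 2 * i + 2 ∧ e.2.1 = some (false, false) ∧
      e.2.2.val = e.1.val + 1) ∨
    (e.1.val = 2 * i + 2 ∧ e.2.1 = none ∧ e.2.2.val = 0)}
  out := by
    intro v
    rcases lt_trichotomy v.val i with h | h | h
    · exact ⟨some (false, false), ⟨v.val + 1, by omega⟩, Or.inl ⟨h, ⟨_, rfl⟩, rfl⟩⟩
    · exact ⟨some (true, false), ⟨v.val + 1, by omega⟩, Or.inr (Or.inl ⟨h, ⟨_, rfl⟩, rfl⟩)⟩
    · by_cases h' : v.val < 2 * i + 2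
      · exact ⟨some (false, false), ⟨v.val + 1, by omega⟩,
          Or.inr (Or.inr (Or.inl ⟨h, h', rfl, rfl⟩))⟩
      · exact ⟨none, ⟨0, by omega⟩,
          Or.inr (Or.inr (Or.inr ⟨by have := v.2; simp only; omega, rfl, rfl⟩))⟩

section lower

variable {i : ℕ}

/-- The node reached after `n` steps of a round, `n ≤ 2i+3`. -/
def nd (i n : ℕ) : Fin (2 * i + 3) := ⟨if n ≤ 2 * i + 2 then n else 0, by split_ifs <;> omega⟩

lemma nd_val {n : ℕ} (h : n ≤ 2 * i + 2) : (nd i n).val = n := by simp [nd, h]

lemma nd_last : (nd i (2 * i + 3)).val = 0 := by simp [nd]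

/-- Protagonist can win from the node `0` of the loop arena. -/
lemma loop_wins (S : ℕ → Bool) (i : ℕ) : ∃ T, (loopArena i).IsStrategy T ∧
    (loopArena i).Wins (W5 S) T (nd i 0) := by
  let ty : Q → Bool := fun q => match q with
    | Q.L _ τ => τ
    | _ => false
  let T : (loopArena i).Strat := fun _ l => (nd i i, some (true, ty (runQ5 S l)), nd i (i + 1))
  refine ⟨T, ?_, ?_⟩
  · intro u l _ hP
    have hP' : ((loopArena i).last u l).val = i := hP
    refine ⟨?_, ?_⟩
    · right; left
      refine ⟨?_, ⟨_, rfl⟩, ?_⟩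
      · simp only [T]; rw [nd_val (by omega)]
      · simp only [T]; rw [nd_val (by omega), nd_val (by omega)]
    · simp only [T]
      apply Fin.ext
      rw [hP', nd_val (by omega)]
  · intro ρ hρ hcons
    set s : ℕ → Col5 := fun n => (ρ n).2.1 with hs
    -- the invariant
    have hinv : ∀ n, ((ρ n).1.val ≤ i → ∃ τ, st5 S (Q.L 0 false) s n = Q.L (ρ n).1.val τ) ∧
        (i < (ρ n).1.val → st5 S (Q.L 0 false) s n = Q.E (2 * i + 2 - (ρ n).1.val)) := by
      intro n
      induction n with
      | zero =>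
        have h0 : (ρ 0).1.val = 0 := by rw [hρ.1]; exact nd_val (by omega)
        refine ⟨fun _ => ⟨false, ?_⟩, fun h => ?_⟩
        · rw [h0]; rfl
        · omega
      | succ n ih =>
        have hnext := hρ.2.2 n
        rcases hρ.2.1 n with h4 | h4 | h4 | h4
        · obtain ⟨h5, ⟨x, h6⟩, h7⟩ := h4
          obtain ⟨τ, hτ⟩ := ih.1 h5.le
          have h8 : s n = some (false, x) := h6
          rw [hnext, h7, st5, hτ, h8]
          exact ⟨fun _ => ⟨_, rfl⟩, fun h => by omega⟩
        · obtain ⟨h5, ⟨x, h6⟩, h7⟩ := h4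
          obtain ⟨τ, hτ⟩ := ih.1 h5.le
          have h8 : (ρ n).1 ∈ (loopArena i).P := h5
          have h9 := hcons n h8
          have h10 : s n = some (true, τ) := by
            simp only [hs, h9, T]
            rw [runQ5_pre, ← hs, hτ]
          rw [hnext, h7, st5, hτ, h10, h5]
          refine ⟨fun h => by omega, fun _ => ?_⟩
          show Q.E (if τ = τ then i + 1 else i) = _
          rw [if_pos rfl]
          congr 1
          omega
        · obtain ⟨h5, h5', h6, h7⟩ := h4
          have hτ := ih.2 h5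
          have h8 : s n = some (false, false) := h6
          rw [hnext, h7, st5, hτ, h8]
          refine ⟨fun h => by omega, fun _ => ?_⟩
          show dl S _ _ = _
          rw [dl_E, if_pos rfl, if_neg (by omega)]
          congr 1
        · obtain ⟨h5, h6, h7⟩ := h4
          have h8 : s n = none := h6
          rw [hnext, h7, st5, h8]
          exact ⟨fun _ => ⟨false, rfl⟩, fun h => by omega⟩
    show {n | Bad S (Q.L 0 false) s n}.Finite
    refine Set.finite_empty.subset ?_
    rintro n ⟨h1, h2⟩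
    have h3 : (ρ n).1.val = 2 * i + 2 := by
      have h2' : (ρ n).2.1 = none := h2
      rcases hρ.2.1 n with h4 | h4 | h4 | h4
      · obtain ⟨_, ⟨x, h6⟩, _⟩ := h4
        rw [h2'] at h6; cases h6
      · obtain ⟨_, ⟨x, h6⟩, _⟩ := h4
        rw [h2'] at h6; cases h6
      · rw [h2'] at h4; cases h4.2.2.1
      · exact h4.1
    have h5 := (hinv n).2 (by omega)
    rw [h1] at h5
    cases h5

/-- the colours of a round with letters `w` and test letter `σ` -/
def c5 (i : ℕ) (w : ℕ → Bool) (σ : Bool) (n : ℕ) : Col5 :=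
  if n < i then some (false, w n) else if n = i then some (true, σ) else
    if n < 2 * i + 2 then some (false, false) else none

lemma c5_lt (w : ℕ → Bool) (σ : Bool) {n : ℕ} (h : n < i) : c5 i w σ n = some (false, w n) := by
  rw [c5, if_pos h]

lemma c5_eq (w : ℕ → Bool) (σ : Bool) : c5 i w σ i = some (true, σ) := by
  simp [c5]

lemma c5_gt (w : ℕ → Bool) (σ : Bool) {n : ℕ} (h : i < n) (h' : n < 2 * i + 2) :
    c5 i w σ n = some (false, false) := by
  rw [c5, if_neg (by omega), if_neg (by omega), if_pos h']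

lemma c5_ge (w : ℕ → Bool) (σ : Bool) {n : ℕ} (h : 2 * i + 2 ≤ n) :
    c5 i w σ n = none := by
  rw [c5, if_neg (by omega), if_neg (by omega), if_neg (by omega)]

/-- the `n`-th edge of a round -/
def sg (i : ℕ) (w : ℕ → Bool) (σ : Bool) (n : ℕ) : (loopArena i).Edge :=
  (nd i n, c5 i w σ n, nd i (n + 1))

lemma sg_mem (w : ℕ → Bool) (σ : Bool) {n : ℕ} (hn : n < 2 * i + 3) :
    sg i w σ n ∈ (loopArena i).E := by
  rcases lt_trichotomy n i with h | h | h
  · left
    refine ⟨?_, ⟨w n, ?_⟩, ?_⟩
    · simp only [sg]; rw [nd_val (by omega)]; exact h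
    · simp only [sg]; rw [c5_lt w σ h]
    · simp only [sg]; rw [nd_val (by omega), nd_val (by omega)]
  · right; left
    refine ⟨?_, ⟨σ, ?_⟩, ?_⟩
    · simp only [sg]; rw [nd_val (by omega)]; exact h
    · simp only [sg]; subst h; rw [c5_eq]
    · simp only [sg]; rw [nd_val (by omega), nd_val (by omega)]
  · by_cases h' : n < 2 * i + 2
    · right; right; left
      refine ⟨?_, ?_, ?_, ?_⟩
      · simp only [sg]; rw [nd_val (by omega)]; exact h
      · simp only [sg]; rw [nd_val (by omega)]; exact h'
      · simp only [sg]; rw [c5_gt w σ h h']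
      · simp only [sg]; rw [nd_val (by omega), nd_val (by omega)]
    · have hn' : n = 2 * i + 2 := by omega
      subst hn'
      right; right; right
      refine ⟨?_, ?_, ?_⟩
      · simp only [sg]; rw [nd_val (by omega)]
      · simp only [sg]; rw [c5_ge w σ (by omega)]
      · simp only [sg]; exact nd_last

/-- the path `l` followed by `n` edges of a round -/
def ext (i : ℕ) (l : List (loopArena i).Edge) (w : ℕ → Bool) (σ : Bool) (n : ℕ) :
    List (loopArena i).Edge := l ++ (List.range n).map (sg i w σ)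

lemma ext_succ (l : List (loopArena i).Edge) (w : ℕ → Bool) (σ : Bool) (n : ℕ) :
    ext i l w σ (n + 1) = ext i l w σ n ++ [sg i w σ n] := by
  simp [ext, List.range_succ]

lemma ext_zero (l : List (loopArena i).Edge) (w : ℕ → Bool) (σ : Bool) :
    ext i l w σ 0 = l := by
  simp [ext]

lemma ext_congr (l : List (loopArena i).Edge) (w : ℕ → Bool) (σ σ' : Bool) :
    ext i l w σ i = ext i l w σ' i := by
  simp only [ext]
  congr 1
  refine List.map_congr_left fun n hn => ?_
  rw [List.mem_range] at hn
  simp only [sg]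
  rw [c5_lt w σ hn, c5_lt w σ' hn]

lemma ext_last {l : List (loopArena i).Edge} {u : (loopArena i).V}
    (hl : (loopArena i).last u l = nd i 0) (w : ℕ → Bool) (σ : Bool) (n : ℕ) :
    (loopArena i).last u (ext i l w σ n) = nd i n := by
  cases n with
  | zero => rw [ext_zero]; exact hl
  | succ n => rw [ext_succ, Arena.last_append]; rfl

lemma ext_cpath {T : (loopArena i).Strat} {l : List (loopArena i).Edge} {u : (loopArena i).V}
    (hc : (loopArena i).CPath T u l) (hl : (loopArena i).last u l = nd i 0) (w : ℕ → Bool)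
    (σ : Bool) {n : ℕ} (hn : n ≤ 2 * i + 3)
    (hT : n ≤ i ∨ T u (ext i l w σ i) = sg i w σ i) :
    (loopArena i).CPath T u (ext i l w σ n) := by
  induction n with
  | zero => rw [ext_zero]; exact hc
  | succ n ih =>
    rw [ext_succ]
    have h1 := ih (by omega) (by
      rcases hT with h | h
      · left; omega
      · right; exact h)
    refine h1.snoc (sg_mem w σ (by omega)) (by rw [ext_last hl]; rfl) fun hP => ?_
    rw [ext_last hl] at hP
    have hP' : (nd i n).val = i := hP
    rw [nd_val (by omega)] at hP'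
    subst hP'
    rcases hT with h | h
    · omega
    · exact h.symm

lemma ext_run (S : ℕ → Bool) {l : List (loopArena i).Edge} (hr : runQ5 S l = Q.L 0 false)
    (w : ℕ → Bool) (σ : Bool) :
    (∀ n, n ≤ i → runQ5 S (ext i l w σ n) = Q.L n (typ S w n)) ∧
    (σ ≠ typ S w i → ∀ n, i < n → n ≤ 2 * i + 1 →
      runQ5 S (ext i l w σ n) = Q.E (i - (n - (i + 1)))) := by
  have h1 : ∀ n, n ≤ i → runQ5 S (ext i l w σ n) = Q.L n (typ S w n) := by
    refine run_level S w (fun n => runQ5 S (ext i l w σ n)) (by rw [ext_zero]; exact hr) i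
      fun n hn => ?_
    rw [ext_succ, runQ5_append]
    simp only [sg]
    rw [c5_lt w σ hn]
    rfl
  refine ⟨h1, fun hσ n hn hn' => ?_⟩
  obtain ⟨j, rfl⟩ := Nat.exists_eq_add_of_lt hn
  induction j with
  | zero =>
    rw [add_zero, Nat.sub_self, Nat.sub_zero, ext_succ, runQ5_append, h1 i le_rfl]
    simp only [sg]
    rw [c5_eq]
    show Q.E (if σ = typ S w i then i + 1 else i) = _
    rw [if_neg hσ]
  | succ j ih =>
    have h2 := ih (by omega) (by omega)
    rw [show i + (j + 1) + 1 = (i + j + 1) + 1 by ring, ext_succ, runQ5_append, h2]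
    simp only [sg]
    rw [c5_gt w σ (by omega) (by omega)]
    show dl S _ _ = _
    rw [dl_E, if_pos rfl, if_neg (by omega)]
    congr 1
    omega

/-- `ChrMem = ∞` for the shift-invariant condition. -/
theorem chrMem_W5 {S : ℕ → Bool} (hS : Window S) (k : ℕ) : ¬ ChrMemLE (W5 S) k := by
  intro hk
  obtain ⟨i, hi⟩ := collision hS k
  obtain ⟨M, T, hM, hT, hMT, hopt⟩ := hk (loopArena i)
  have hwin := hopt _ (loop_wins S i)
  set u := nd i 0 with hu
  let f : Fin k → Bool → Fin k := fun m x => M.upd m (nd i 0, some (false, x), nd i 0)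
  have hrun : ∀ (l : List (loopArena i).Edge) (w : ℕ → Bool) (σ : Bool) n, n ≤ i →
      M.run (ext i l w σ n) = runF f (M.run l) w n := by
    intro l w σ n hn
    induction n with
    | zero => rw [ext_zero]; rfl
    | succ n ih =>
      rw [ext_succ, Arena.Memory.run, List.foldl_append, List.foldl_cons, List.foldl_nil,
        ← Arena.Memory.run, ih (by omega), runF]
      apply hM
      simp only [sg]
      rw [c5_lt w σ (by omega)]
  have hP : nd i i ∈ (loopArena i).P := nd_val (by omega)
  -- one losing round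
  have hround : ∀ l, (loopArena i).CPath T u l → (loopArena i).last u l = nd i 0 →
      runQ5 S l = Q.L 0 false → ∃ l', (loopArena i).CPath T u l' ∧
        (loopArena i).last u l' = nd i 0 ∧ runQ5 S l' = Q.L 0 false ∧ l <+: l' ∧
        ∃ l1 e, l <+: l1 ∧ l1 ++ [e] <+: l' ∧ runQ5 S l1 = Q.dead ∧ e.2.1 = none := by
    intro l hc hl hr
    obtain ⟨w, w', h1, h2⟩ := hi f (M.run l)
    have hmove : ∀ (w : ℕ → Bool), ∃ σ, T u (ext i l w σ i) = sg i w σ i := by
      intro w
      have hcp := ext_cpath hc hl w false (n := i) (by omega) (Or.inl le_rfl)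
      obtain ⟨h3, h4⟩ := hT u _ hcp.isPath (by rw [ext_last hl]; exact hP)
      rw [ext_last hl] at h4
      set x := T u (ext i l w false i) with hx
      have hxi : x.1.val = i := by rw [h4]; exact nd_val (by omega)
      rcases h3 with h5 | h5 | h5 | h5
      · omega
      · obtain ⟨h5, ⟨σ, h6⟩, h7⟩ := h5
        refine ⟨σ, ?_⟩
        rw [ext_congr l w σ false, ← hx]
        refine Prod.ext h4 (Prod.ext ?_ ?_)
        · simp only [sg]; rw [c5_eq]; exact h6
        · apply Fin.ext
          rw [h7, hxi]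
          simp only [sg]; rw [nd_val (by omega)]
      · omega
      · omega
    obtain ⟨σ, hσ⟩ := hmove w
    obtain ⟨σ', hσ'⟩ := hmove w'
    have hσσ : σ = σ' := by
      have hcp := ext_cpath hc hl w σ (n := i) (by omega) (Or.inl le_rfl)
      have hcp' := ext_cpath hc hl w' σ' (n := i) (by omega) (Or.inl le_rfl)
      have h3 := hMT u _ u _ hcp.isPath hcp'.isPath (by rw [ext_last hl]; exact hP)
        (by rw [ext_last hl, ext_last hl])
        (by rw [hrun l w σ i le_rfl, hrun l w' σ' i le_rfl]; exact h1)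
      rw [hσ, hσ'] at h3
      have h4 := congrArg (fun e : (loopArena i).Edge => e.2.1) h3
      simp only [sg] at h4
      rw [c5_eq, c5_eq] at h4
      simpa using h4
    subst hσσ
    obtain ⟨v, hv1, hv2⟩ : ∃ v : ℕ → Bool, T u (ext i l v σ i) = sg i v σ i ∧ σ ≠ typ S v i := by
      by_cases h : σ = typ S w i
      · exact ⟨w', hσ', fun h' => h2 (h.symm.trans h')⟩
      · exact ⟨w, hσ, h⟩
    have hdead : runQ5 S (ext i l v σ (2 * i + 2)) = Q.dead := by
      have h7 := (ext_run S hr v σ).2 hv2 (2 * i + 1) (by omega) (by omega)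
      rw [ext_succ, runQ5_append, h7]
      simp only [sg]
      rw [c5_gt v σ (by omega) (by omega)]
      show dl S _ _ = _
      rw [dl_E, if_pos rfl, if_pos (by omega)]
    have hcol : c5 i v σ (2 * i + 2) = none := c5_ge v σ le_rfl
    refine ⟨ext i l v σ (2 * i + 3), ext_cpath hc hl v σ le_rfl (Or.inr hv1), ?_, ?_, ?_,
      ext i l v σ (2 * i + 2), sg i v σ (2 * i + 2), List.prefix_append _ _, ?_, hdead, hcol⟩
    · rw [ext_last hl]
      apply Fin.ext
      rw [nd_last, nd_val (by omega)]
    · rw [show 2 * i + 3 = 2 * i + 2 + 1 from rfl, ext_succ, runQ5_append]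
      simp only [sg]
      rw [hcol]
      rfl
    · exact List.prefix_append _ _
    · rw [← ext_succ]
  -- iterate
  let Tt := {l : List (loopArena i).Edge // (loopArena i).CPath T u l ∧
    (loopArena i).last u l = nd i 0 ∧ runQ5 S l = Q.L 0 false}
  have hnext : ∀ t : Tt, ∃ t' : Tt, t.1 <+: t'.1 ∧ ∃ l1 e, t.1 <+: l1 ∧ l1 ++ [e] <+: t'.1 ∧
      runQ5 S l1 = Q.dead ∧ e.2.1 = none := by
    rintro ⟨l, h1, h2, h3⟩
    obtain ⟨l', h4, h5, h6, h7, h8⟩ := hround l h1 h2 h3
    exact ⟨⟨l', h4, h5, h6⟩, h7, h8⟩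
  choose g hg1 hg2 using hnext
  let h : ℕ → Tt := fun n => g^[n] ⟨[], Arena.CPath.nil T u, rfl, rfl⟩
  have hh : ∀ n, h (n + 1) = g (h n) := fun n => Function.iterate_succ_apply' g n _
  have hlen : ∀ n, n ≤ (h n).1.length := by
    intro n
    induction n with
    | zero => exact Nat.zero_le _
    | succ n ih =>
      obtain ⟨l1, e, h1, h2, -, -⟩ := hg2 (h n)
      have h3 := h1.length_le
      have h4 := h2.length_le
      rw [List.length_append, List.length_singleton, ← hh] at h4
      omega
  obtain ⟨ρ, h1, h2, h3⟩ := Arena.exists_limit (S := T) (u := u) (fun n => (h n).1)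
    (fun n => (h n).2.1) (fun n => by rw [hh]; exact hg1 (h n)) hlen
  have hfin := hwin ρ h1 h2
  apply Set.infinite_of_not_bddAbove ?_ hfin
  rintro ⟨B, hB⟩
  obtain ⟨l1, e, h4, h5, h6, h7⟩ := hg2 (h (B + 1))
  rw [← hh, ← h3 (B + 2)] at h5
  have h8 : l1 ++ [e] = (loopArena i).pre ρ (l1.length + 1) := by
    have h9 := List.prefix_iff_eq_take.1 h5
    rw [List.length_append, List.length_singleton] at h9
    have h10 : l1.length + 1 ≤ (h (B + 2)).1.length := by
      have := h5.length_le
      rw [Arena.pre_length] at this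
      simpa using this
    rw [h9, Arena.pre, ← List.map_take, List.take_range, min_eq_left h10]
    rfl
  rw [Arena.pre_succ] at h8
  obtain ⟨h9, h10⟩ := List.append_inj' h8 rfl
  obtain rfl : e = ρ l1.length := by simpa using h10
  have hbad : Bad S (Q.L 0 false) (fun n => (ρ n).2.1) l1.length := by
    refine ⟨?_, h7⟩
    rw [← runQ5_pre, ← h9]
    exact h6
  have h11 := hB hbad
  have h12 := h4.length_le
  have h13 := hlen (B + 1)
  omega

end lower

end Pool.Agent.GameMem200
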