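import Pool.Agent.GameMem200.Safety

/-!
# The complement of the safety condition
-/

open Set

namespace Pool.Agent.GameMem200

section reach

variable (S : ℕ → Bool) (A : Arena Col)

/-- Protagonist can force `dead` within `n` steps. -/
def WinN : ℕ → A.V → Q → Prop
  | 0, _, q => q = Q.dead
  | n + 1, v, q => q = Q.dead ∨
      (v ∈ A.P ∧ ∃ c w, (v, c, w) ∈ A.E ∧ WinN n w (dl S q c)) ∨
      (v ∉ A.P ∧ ∀ c w, (v, c, w) ∈ A.E → WinN n w (dl S q c))

/-- Protagonist can force `dead`. -/
def WinR (v : A.V) (q : Q) : Prop := ∃ n, WinN S A n v q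

variable {S A}

lemma WinN.succ {n : ℕ} {v : A.V} {q : Q} (h : WinN S A n v q) : WinN S A (n + 1) v q := by
  induction n generalizing v q with
  | zero => exact Or.inl h
  | succ n ih =>
    rcases h with h | ⟨h1, c, w, h2, h3⟩ | ⟨h1, h2⟩
    · exact Or.inl h
    · exact Or.inr (Or.inl ⟨h1, c, w, h2, ih h3⟩)
    · exact Or.inr (Or.inr ⟨h1, fun c w he => ih (h2 c w he)⟩)

lemma WinN.le {n m : ℕ} (hnm : n ≤ m) {v : A.V} {q : Q} (h : WinN S A n v q) :
    WinN S A m v q := by
  induction m, hnm using Nat.le_induction with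
  | base => exact h
  | succ m _ ih => exact ih.succ

lemma WinN.mono {n : ℕ} {v : A.V} {q q' : Q} (hq : qle q' q) (h : WinN S A n v q) :
    WinN S A n v q' := by
  induction n generalizing v q q' with
  | zero =>
    have h' : q = Q.dead := h
    rw [h'] at hq
    exact qle_dead hq
  | succ n ih =>
    rcases h with h | ⟨h1, c, w, h2, h3⟩ | ⟨h1, h2⟩
    · rw [h] at hq
      exact Or.inl (qle_dead hq)
    · exact Or.inr (Or.inl ⟨h1, c, w, h2, ih (dl_mono S hq c) h3⟩)
    · exact Or.inr (Or.inr ⟨h1, fun c w he => ih (dl_mono S hq c) (h2 c w he)⟩)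

lemma WinR.mono {v : A.V} {q q' : Q} (hq : qle q' q) (h : WinR S A v q) : WinR S A v q' := by
  obtain ⟨n, hn⟩ := h
  exact ⟨n, hn.mono hq⟩

lemma winR_P {v : A.V} {q : Q} (hv : v ∈ A.P) {c : Col} {w : A.V} (he : (v, c, w) ∈ A.E)
    (h : WinR S A w (dl S q c)) : WinR S A v q := by
  obtain ⟨n, hn⟩ := h
  exact ⟨n + 1, Or.inr (Or.inl ⟨hv, c, w, he, hn⟩)⟩

lemma winR_A {v : A.V} {q : Q} (hv : v ∉ A.P)
    (h : ∀ c w, (v, c, w) ∈ A.E → WinR S A w (dl S q c)) : WinR S A v q := by
  classical
  have := A.finV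
  have h1 : ∀ p : Col × A.V, ∃ n, (v, p.1, p.2) ∈ A.E → WinN S A n p.2 (dl S q p.1) := by
    rintro ⟨c, w⟩
    by_cases he : (v, c, w) ∈ A.E
    · obtain ⟨n, hn⟩ := h c w he
      exact ⟨n, fun _ => hn⟩
    · exact ⟨0, fun h' => absurd h' he⟩
  choose N hN using h1
  obtain ⟨B, hB⟩ := (Set.finite_range N).bddAbove
  exact ⟨B + 1, Or.inr (Or.inr ⟨hv, fun c w he => (hN (c, w) he).le (hB ⟨_, rfl⟩)⟩)⟩

/-- a node from which some strategy wins -/
lemma win_reach {T : A.Strat} (hT : A.IsStrategy T) {u : A.V}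
    (hw : A.Wins (SafeW S)ᶜ T u) : WinR S A u (Q.L 0 false) := by
  by_contra hu
  let Tt := {l : List A.Edge // A.CPath T u l ∧ ¬ WinR S A (A.last u l) (runQ S l)}
  have hnext : ∀ t : Tt, ∃ t' : Tt, ∃ e, t'.1 = t.1 ++ [e] := by
    rintro ⟨l, h1, h2⟩
    by_cases hP : A.last u l ∈ A.P
    · obtain ⟨h3, h4⟩ := hT u l h1.isPath hP
      refine ⟨⟨l ++ [T u l], h1.snoc h3 h4 fun _ => rfl, fun h5 => h2 ?_⟩, _, rfl⟩
      rw [Arena.last_append, runQ_append] at h5
      refine winR_P hP (c := (T u l).2.1) (w := (T u l).2.2) ?_ h5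
      have : (A.last u l, (T u l).2.1, (T u l).2.2) = T u l := by rw [← h4]
      rw [this]; exact h3
    · have h3 : ∃ c w, (A.last u l, c, w) ∈ A.E ∧ ¬ WinR S A w (dl S (runQ S l) c) := by
        by_contra hcon
        push Not at hcon
        exact h2 (winR_A hP fun c w he => hcon c w he)
      obtain ⟨c, w, h4, h5⟩ := h3
      refine ⟨⟨l ++ [(A.last u l, c, w)], h1.snoc h4 rfl fun h => absurd h hP, ?_⟩, _, rfl⟩
      rw [Arena.last_append, runQ_append]
      exact h5
  choose f hf using hnext
  let g : ℕ → Tt := fun n => f^[n] ⟨[], Arena.CPath.nil T u, hu⟩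
  have hg : ∀ n, g (n + 1) = f (g n) := fun n => Function.iterate_succ_apply' f n _
  have hlen : ∀ n, (g n).1.length = n := by
    intro n
    induction n with
    | zero => rfl
    | succ n ih =>
      obtain ⟨e, he⟩ := hf (g n)
      rw [hg, he, List.length_append, ih]
      simp
  obtain ⟨ρ, h1, h2, h3⟩ := Arena.exists_limit (S := T) (u := u) (fun n => (g n).1)
    (fun n => (g n).2.1)
    (fun n => by
      rw [hg]
      obtain ⟨e, he⟩ := hf (g n)
      rw [he]
      exact List.prefix_append _ _)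
    (fun n => by rw [hlen])
  apply hw ρ h1 h2
  intro n hn
  rw [← runQ_pre] at hn
  have h4 := h3 n
  rw [hlen] at h4
  rw [h4] at hn
  exact (g n).2.2 ⟨0, hn⟩

/-- a uniform bound for the resources -/
lemma exists_bound (S : ℕ → Bool) (A : Arena Col) : ∃ R0, ∀ v, WinR S A v (Q.E R0) →
    ∀ r, WinR S A v (Q.E r) := by
  classical
  have := A.finV
  have h1 : ∀ v : A.V, ∃ r, WinR S A v (Q.E r) → ∀ r, WinR S A v (Q.E r) := by
    intro v
    by_cases h : ∀ r, WinR S A v (Q.E r)
    · exact ⟨0, fun _ => h⟩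
    · push Not at h
      obtain ⟨r, hr⟩ := h
      exact ⟨r, fun h' => absurd h' hr⟩
  choose r hr using h1
  obtain ⟨B, hB⟩ := (Set.finite_range r).bddAbove
  refine ⟨B, fun v hv => hr v (hv.mono (q' := Q.E (r v)) ?_)⟩
  show r v ≤ B
  exact hB ⟨v, rfl⟩

variable (S A)

open Classical in
/-- the largest resource `≤ R` from which Protagonist can win in the second phase -/
noncomputable def rv (R : ℕ) (v : A.V) : ℕ := Nat.findGreatest (fun r => WinR S A v (Q.E r)) R

open Classical in
/-- the largest level `≤ R` from which Protagonist can win in the first phase -/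
noncomputable def lv (R : ℕ) (v : A.V) : ℕ :=
  Nat.findGreatest (fun n => ∃ τ, WinR S A v (Q.L n τ)) R

open Classical in
/-- the type with the label `b` at the top level -/
noncomputable def tv (R : ℕ) (v : A.V) (b : Bool) : Bool :=
  if WinR S A v (Q.L (lv S A R v) b) then b else !b

/-- the virtual state -/
noncomputable def virt (R : ℕ) (v : A.V) : Option Bool → Q
  | none => Q.E (rv S A R v)
  | some b => Q.L (lv S A R v) (tv S A R v b)

/-- the level of the virtual state -/
noncomputable def lev (R : ℕ) (v : A.V) : Option Bool → ℕ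
  | none => rv S A R v
  | some _ => lv S A R v

/-- the memory update -/
noncomputable def updO (R : ℕ) : Option Bool → A.Edge → Option Bool
  | none, _ => none
  | some b, (v, (false, x), _) => some (tv S A R v b ^^ (x && S (lv S A R v)))
  | some _, (_, (true, _), _) => none

/-- the invariant -/
def Dom (R : ℕ) (v : A.V) : Option Bool → Q → Prop
  | none, q => WinR S A v (Q.E 0) ∧ ∃ r, q = Q.E r ∧ (r ≤ rv S A R v ∨ rv S A R v = R)
  | some b, q => (∃ n τ, n ≤ R ∧ WinR S A v (Q.L n τ)) ∧
      ∃ i τ, q = Q.L i τ ∧ (qle q (virt S A R v (some b)) ∨ lv S A R v = R)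

variable {S A}

lemma rv_spec {R : ℕ} {v : A.V} (h : WinR S A v (Q.E 0)) : WinR S A v (Q.E (rv S A R v)) := by
  classical
  exact Nat.findGreatest_spec (P := fun r => WinR S A v (Q.E r)) (Nat.zero_le R) h

lemma le_rv {R r : ℕ} {v : A.V} (h : WinR S A v (Q.E r)) (hr : r ≤ R) : r ≤ rv S A R v := by
  classical
  exact Nat.le_findGreatest (P := fun r => WinR S A v (Q.E r)) hr h

lemma rv_le {R : ℕ} {v : A.V} : rv S A R v ≤ R := by
  classical
  exact Nat.findGreatest_le R

lemma le_lv {R n : ℕ} {τ : Bool} {v : A.V} (h : WinR S A v (Q.L n τ)) (hr : n ≤ R) :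
    n ≤ lv S A R v := by
  classical
  exact Nat.le_findGreatest (P := fun n => ∃ τ, WinR S A v (Q.L n τ)) hr ⟨τ, h⟩

lemma lv_le {R : ℕ} {v : A.V} : lv S A R v ≤ R := by
  classical
  exact Nat.findGreatest_le R

lemma lv_spec {R n : ℕ} {τ : Bool} {v : A.V} (h : WinR S A v (Q.L n τ)) (hr : n ≤ R) (b : Bool) :
    WinR S A v (virt S A R v (some b)) := by
  classical
  obtain ⟨τ', h1⟩ := Nat.findGreatest_spec (P := fun n => ∃ τ, WinR S A v (Q.L n τ)) hr ⟨τ, h⟩
  change WinR S A v (Q.L (lv S A R v) τ') at h1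
  show WinR S A v (Q.L (lv S A R v) (tv S A R v b))
  unfold tv
  split_ifs with h2
  · exact h2
  · have h3 : τ' = !b := by
      cases τ' <;> cases b <;> simp_all
    rw [← h3]; exact h1

lemma le_virt {R n : ℕ} {τ : Bool} {v : A.V} (h : WinR S A v (Q.L n τ)) (hr : n ≤ R) :
    qle (Q.L n τ) (virt S A R v (some τ)) := by
  show n < lv S A R v ∨ (n = lv S A R v ∧ τ = tv S A R v τ)
  rcases (le_lv h hr).lt_or_eq with h1 | h1
  · exact Or.inl h1
  · refine Or.inr ⟨h1, ?_⟩
    unfold tv
    rw [← h1, if_pos h]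

lemma Dom.win {R : ℕ} {v : A.V} {o : Option Bool} {q : Q} (h : Dom S A R v o q) :
    WinR S A v (virt S A R v o) := by
  cases o with
  | none => exact rv_spec h.1
  | some b =>
    obtain ⟨⟨n, τ, h1, h2⟩, -⟩ := h
    exact lv_spec h2 h1 b

lemma virt_ne {R : ℕ} {v : A.V} {o : Option Bool} : virt S A R v o ≠ Q.dead := by
  cases o <;> simp [virt]

variable (S A)

open Classical in
/-- the rank -/
noncomputable def rk (v : A.V) (q : Q) : ℕ := if h : WinR S A v q then Nat.find h else 0

variable {S A}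

lemma rk_spec {v : A.V} {q : Q} (h : WinR S A v q) : WinN S A (rk S A v q) v q := by
  classical
  unfold rk
  rw [dif_pos h]
  exact Nat.find_spec h

lemma rk_le {v : A.V} {q : Q} {n : ℕ} (h : WinN S A n v q) : rk S A v q ≤ n := by
  classical
  unfold rk
  rw [dif_pos ⟨n, h⟩]
  exact Nat.find_min' _ h

/-- the resource of a state -/
def res : Q → ℕ
  | Q.E r => r
  | _ => 0

/-- the number of the phase -/
def ph : Option Bool → ℕ
  | none => 0
  | some _ => 1

variable (S A) in
/-- the measure -/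
noncomputable def mea (R : ℕ) (v : A.V) (o : Option Bool) (q : Q) : ℕ ×ₗ ℕ ×ₗ ℕ ×ₗ ℕ :=
  toLex (ph o, toLex (res q, toLex (R - lev S A R v o, rk S A v (virt S A R v o))))

lemma dom_step {R0 R : ℕ} (hR0 : ∀ v, WinR S A v (Q.E R0) → ∀ r, WinR S A v (Q.E r))
    (hR : R = R0 + 1) {v w : A.V} {c : Col} {o : Option Bool} {q : Q} {k : ℕ}
    (hD : Dom S A R v o q) (hk : rk S A v (virt S A R v o) = k + 1)
    (hwin : WinN S A k w (dl S (virt S A R v o) c)) (hq : dl S q c ≠ Q.dead) :
    Dom S A R w (updO S A R o (v, c, w)) (dl S q c) ∧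
      mea S A R w (updO S A R o (v, c, w)) (dl S q c) < mea S A R v o q := by
  cases o with
  | none =>
    obtain ⟨h0, r, rfl, hr⟩ := hD
    have hU : updO S A R none (v, c, w) = none := rfl
    rw [hU]
    change WinN S A k w (dl S (Q.E (rv S A R v)) c) at hwin
    rw [dl_E] at hq hwin ⊢
    by_cases hc : c = (false, false)
    · rw [if_pos hc] at hq hwin ⊢
      by_cases hr0 : r = 0
      · rw [if_pos hr0] at hq; exact absurd rfl hq
      rw [if_neg hr0]
      have hrv0 : rv S A R v ≠ 0 := by omega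
      rw [if_neg hrv0] at hwin
      have hle := rv_le (S := S) (R := R) (v := v)
      refine ⟨⟨?_, r - 1, rfl, ?_⟩, ?_⟩
      · exact WinR.mono (show (0:ℕ) ≤ _ from Nat.zero_le _) ⟨k, hwin⟩
      · rcases hr with hr | hr
        · left
          have := le_rv (R := R) ⟨k, hwin⟩ (by omega)
          omega
        · right
          rw [hr, hR, Nat.add_sub_cancel] at hwin
          exact le_antisymm rv_le (le_rv (hR0 w ⟨k, hwin⟩ R) le_rfl)
      · unfold mea
        rw [Prod.Lex.toLex_lt_toLex]
        right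
        refine ⟨rfl, ?_⟩
        rw [Prod.Lex.toLex_lt_toLex]
        left
        simp only [res]
        omega
    · rw [if_neg hc] at hq hwin ⊢
      have h1 := le_rv (R := R) ⟨k, hwin⟩ rv_le
      have h2 := rv_le (S := S) (R := R) (v := w)
      refine ⟨⟨WinR.mono (show (0:ℕ) ≤ _ from Nat.zero_le _) ⟨k, hwin⟩, r, rfl, by omega⟩, ?_⟩
      unfold mea
      rw [Prod.Lex.toLex_lt_toLex]
      right
      refine ⟨rfl, ?_⟩
      rw [Prod.Lex.toLex_lt_toLex]
      right
      refine ⟨rfl, ?_⟩
      rw [Prod.Lex.toLex_lt_toLex]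
      simp only [lev]
      rcases h1.lt_or_eq with h3 | h3
      · left; omega
      · right
        refine ⟨by rw [h3], ?_⟩
        rw [hk]
        have h4 : rk S A w (virt S A R w none) ≤ k := by
          apply rk_le
          show WinN S A k w (Q.E (rv S A R w))
          rw [← h3]; exact hwin
        omega
  | some b =>
    obtain ⟨⟨n0, τ0, hn0, hw0⟩, i, τ, rfl, hi⟩ := hD
    obtain ⟨t, x⟩ := c
    have hle := lv_le (S := S) (R := R) (v := v)
    cases t with
    | false =>
      set τ' := (tv S A R v b ^^ (x && S (lv S A R v))) with hτ'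
      have hU : updO S A R (some b) (v, (false, x), w) = some τ' := rfl
      rw [hU]
      have hv' : dl S (virt S A R v (some b)) (false, x) = Q.L (lv S A R v + 1) τ' := rfl
      rw [hv'] at hwin
      by_cases hlt : lv S A R v = R
      · rw [hlt] at hwin
        have h1 : ∀ τ'', WinN S A k w (Q.L R τ'') := fun τ'' =>
          WinN.mono (q' := Q.L R τ'') (q := Q.L (R + 1) τ') (Or.inl (Nat.lt_succ_self R)) hwin
        have h2 : lv S A R w = R := le_antisymm lv_le (le_lv ⟨k, h1 false⟩ le_rfl)
        refine ⟨⟨⟨R, false, le_rfl, k, h1 false⟩, _, _, rfl, Or.inr h2⟩, ?_⟩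
        unfold mea
        rw [Prod.Lex.toLex_lt_toLex]
        right
        refine ⟨rfl, ?_⟩
        rw [Prod.Lex.toLex_lt_toLex]
        right
        refine ⟨rfl, ?_⟩
        rw [Prod.Lex.toLex_lt_toLex]
        right
        refine ⟨?_, ?_⟩
        · simp only [lev]; rw [h2, hlt]
        · rw [hk]
          have h4 : rk S A w (virt S A R w (some τ')) ≤ k := by
            apply rk_le
            show WinN S A k w (Q.L (lv S A R w) _)
            rw [h2]; exact h1 _
          simp only
          omega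
      · have hlt' : lv S A R v + 1 ≤ R := by omega
        have h1 := le_virt (R := R) ⟨k, hwin⟩ hlt'
        have h2 := le_lv (R := R) ⟨k, hwin⟩ hlt'
        have h3 := lv_le (S := S) (R := R) (v := w)
        refine ⟨⟨⟨_, _, hlt', k, hwin⟩, _, _, rfl, Or.inl ?_⟩, ?_⟩
        · rcases hi with hi | hi
          · refine qle_trans (dl_mono S hi (false, x)) ?_
            rw [hv']; exact h1
          · exact absurd hi hlt
        · unfold mea
          rw [Prod.Lex.toLex_lt_toLex]
          right
          refine ⟨rfl, ?_⟩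
          rw [Prod.Lex.toLex_lt_toLex]
          right
          refine ⟨rfl, ?_⟩
          rw [Prod.Lex.toLex_lt_toLex]
          left
          simp only [lev]
          omega
    | true =>
      have hU : updO S A R (some b) (v, (true, x), w) = none := rfl
      rw [hU]
      set s' := (if x = tv S A R v b then lv S A R v + 1 else lv S A R v) with hs'
      have hv' : dl S (virt S A R v (some b)) (true, x) = Q.E s' := rfl
      rw [hv'] at hwin
      set r' := (if x = τ then i + 1 else i) with hr'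
      have hq' : dl S (Q.L i τ) (true, x) = Q.E r' := rfl
      rw [hq']
      have hall : R0 ≤ s' → rv S A R w = R := fun h =>
        le_antisymm rv_le (le_rv (hR0 w (WinR.mono (q' := Q.E R0) (q := Q.E s') h ⟨k, hwin⟩) R)
          le_rfl)
      refine ⟨⟨WinR.mono (show (0:ℕ) ≤ _ from Nat.zero_le _) ⟨k, hwin⟩, r', rfl, ?_⟩, ?_⟩
      · rcases hi with hi | hi
        · have h1 := dl_mono S hi (true, x)
          rw [hv', hq'] at h1
          have h1' : r' ≤ s' := h1
          by_cases hrR : r' ≤ R
          · left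
            exact le_rv (WinR.mono (q' := Q.E r') (q := Q.E s') h1' ⟨k, hwin⟩) hrR
          · right
            apply hall
            omega
        · right
          apply hall
          have : lv S A R v ≤ s' := by rw [hs']; split_ifs <;> omega
          omega
      · unfold mea
        rw [Prod.Lex.toLex_lt_toLex]
        left
        simp [ph]

/-- encoding of the memory states -/
def enc (m : Fin 3) : Option Bool := if m = 0 then some false else if m = 1 then some true else none

/-- decoding of the memory states -/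
def dec : Option Bool → Fin 3
  | some false => 0
  | some true => 1
  | none => 2

lemma enc_dec (o : Option Bool) : enc (dec o) = o := by
  rcases o with _ | _ | _ <;> rfl

/-- `GenMem ≤ 3` for the complement of the safety condition. -/
theorem genMem_compl (S : ℕ → Bool) : GenMemLE (SafeW S)ᶜ 3 := by
  classical
  intro A
  obtain ⟨R0, hR0⟩ := exists_bound S A
  obtain ⟨R, hR⟩ : ∃ R, R = R0 + 1 := ⟨_, rfl⟩
  have hσ : ∀ v (o : Option Bool), ∃ e : A.Edge, e ∈ A.E ∧ e.1 = v ∧
      (v ∈ A.P → WinR S A v (virt S A R v o) → ∀ k, rk S A v (virt S A R v o) = k + 1 →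
        WinN S A k e.2.2 (dl S (virt S A R v o) e.2.1)) := by
    intro v o
    by_cases h : v ∈ A.P ∧ WinR S A v (virt S A R v o)
    · obtain ⟨h1, h2⟩ := h
      have h3 := rk_spec h2
      cases hk : rk S A v (virt S A R v o) with
      | zero =>
        rw [hk] at h3
        exact absurd h3 virt_ne
      | succ k =>
        rw [hk] at h3
        rcases h3 with h3 | ⟨_, c, w, h4, h5⟩ | ⟨h4, _⟩
        · exact absurd h3 virt_ne
        · refine ⟨(v, c, w), h4, rfl, fun _ _ k' hk' => ?_⟩
          obtain rfl : k = k' := by omega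
          exact h5
        · exact absurd h1 h4
    · obtain ⟨c, w, h1⟩ := A.out v
      exact ⟨(v, c, w), h1, rfl, fun h2 h3 => absurd ⟨h2, h3⟩ h⟩
  choose σ hσ1 hσ2 hσ3 using hσ
  let M : A.Memory 3 := ⟨0, fun m e => dec (updO S A R (enc m) e)⟩
  let T : A.Strat := fun u l => σ (A.last u l) (enc (M.run l))
  refine ⟨M, T, fun u l _ _ => ⟨hσ1 _ _, hσ2 _ _⟩, ?_, ?_⟩
  · intro u l u' l' _ _ _ h1 h2
    simp only [T, h1, h2]
  · rintro u ⟨T', hT', hw⟩ ρ hplay hcons hsafe
    have hu := win_reach hT' hw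
    set s : ℕ → Col := fun n => (ρ n).2.1 with hs
    let o : ℕ → Option Bool := fun n => enc (M.run (A.pre ρ n))
    have ho : ∀ n, o (n + 1) = updO S A R (o n) (ρ n) := by
      intro n
      simp only [o, Arena.pre_succ, Arena.Memory.run, List.foldl_append, List.foldl_cons,
        List.foldl_nil, M, enc_dec]
    have hstep : ∀ n, Dom S A R (ρ n).1 (o n) (st S s n) →
        Dom S A R (ρ (n + 1)).1 (o (n + 1)) (st S s (n + 1)) ∧
        mea S A R (ρ (n + 1)).1 (o (n + 1)) (st S s (n + 1)) <
          mea S A R (ρ n).1 (o n) (st S s n) := by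
      intro n hD
      have h1 := rk_spec hD.win
      have hk : ∃ k, rk S A (ρ n).1 (virt S A R (ρ n).1 (o n)) = k + 1 := by
        rcases Nat.eq_zero_or_pos (rk S A (ρ n).1 (virt S A R (ρ n).1 (o n))) with h2 | h2
        · rw [h2] at h1; exact absurd h1 virt_ne
        · exact ⟨_, (Nat.succ_pred_eq_of_pos h2).symm⟩
      obtain ⟨k, hk⟩ := hk
      have hwin : WinN S A k (ρ n).2.2 (dl S (virt S A R (ρ n).1 (o n)) (ρ n).2.1) := by
        by_cases hP : (ρ n).1 ∈ A.P
        · have h2 : ρ n = σ (ρ n).1 (o n) := by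
            have h2 := hcons n hP
            simp only [T, Arena.isPlay_last hplay n] at h2
            exact h2
          have h3 := hσ3 (ρ n).1 (o n) hP hD.win k hk
          rw [← h2] at h3
          exact h3
        · rw [hk] at h1
          rcases h1 with h1 | ⟨h2, _⟩ | ⟨_, h2⟩
          · exact absurd h1 virt_ne
          · exact absurd h2 hP
          · exact h2 _ _ (hplay.2.1 n)
      have h4 := dom_step hR0 hR hD hk hwin (hsafe (n + 1))
      rw [ho, hplay.2.2 n]
      exact h4
    have hDall : ∀ n, Dom S A R (ρ n).1 (o n) (st S s n) := by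
      intro n
      induction n with
      | zero =>
        rw [hplay.1]
        exact ⟨⟨0, false, Nat.zero_le _, hu⟩, 0, false, rfl, Or.inl (le_virt hu (Nat.zero_le _))⟩
      | succ n ih => exact (hstep n ih).1
    have hdec := fun n => (hstep n (hDall n)).2
    obtain ⟨m, ⟨n, rfl⟩, hm⟩ := WellFounded.has_min (wellFounded_lt (α := ℕ ×ₗ ℕ ×ₗ ℕ ×ₗ ℕ))
      (Set.range fun n => mea S A R (ρ n).1 (o n) (st S s n)) ⟨_, 0, rfl⟩
    exact hm _ ⟨n + 1, rfl⟩ (hdec n)

end reach

end Pool.Agent.GameMem200
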