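import Pool.Agent.GameMem200.Auto

/-!
# The safety condition
-/

open Set

namespace Pool.Agent.GameMem200

/-- The state of the automaton after the first `n` colours of `s`. -/
def st (S : ℕ → Bool) (s : ℕ → Col) : ℕ → Q
  | 0 => Q.L 0 false
  | n + 1 => dl S (st S s n) (s n)

/-- The safety condition: the state `dead` is never reached. -/
def SafeW (S : ℕ → Bool) : Set (ℕ → Col) := {s | ∀ n, st S s n ≠ Q.dead}

lemma isClosed_safeW (S : ℕ → Bool) : IsClosed (SafeW S) := by
  let _ : TopologicalSpace Q := ⊥
  have : DiscreteTopology Q := ⟨rfl⟩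
  have hc : ∀ n, Continuous fun s : ℕ → Col => st S s n := by
    intro n
    induction n with
    | zero => exact continuous_const
    | succ n ih =>
      exact (continuous_of_discreteTopology (f := fun p : Q × Col => dl S p.1 p.2)).comp
        (ih.prodMk (continuous_apply n))
  have h1 : SafeW S = ⋂ n, (fun s : ℕ → Col => st S s n) ⁻¹' {Q.dead}ᶜ := by
    ext s
    simp [SafeW]
  rw [h1]
  exact isClosed_iInter fun n => (isClosed_discrete _).preimage (hc n)

section

variable {A : Arena Col}

/-- the state of the automaton after a finite path -/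
def runQ (S : ℕ → Bool) (l : List A.Edge) : Q := l.foldl (fun q e => dl S q e.2.1) (Q.L 0 false)

lemma runQ_append (S : ℕ → Bool) (l : List A.Edge) (e : A.Edge) :
    runQ S (l ++ [e]) = dl S (runQ S l) e.2.1 := by simp [runQ]

lemma runQ_pre (S : ℕ → Bool) (ρ : ℕ → A.Edge) (n : ℕ) :
    runQ S (A.pre ρ n) = st S (fun n => (ρ n).2.1) n := by
  induction n with
  | zero => rfl
  | succ n ih => rw [Arena.pre_succ, runQ_append, ih]; rfl

end

/-- the resource system of the safety condition -/
noncomputable def stepS (S : ℕ → Bool) (q : Q) (c : Col) : Option Q :=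
  open Classical in if dl S q c = Q.dead then none else some (dl S q c)

lemma stepS_some {S : ℕ → Bool} {q q' : Q} {c : Col} :
    stepS S q c = some q' ↔ dl S q c = q' ∧ q' ≠ Q.dead := by
  unfold stepS
  split_ifs with h
  · constructor
    · intro h'; cases h'
    · rintro ⟨h1, h2⟩; exact absurd (h1.symm.trans h) h2
  · constructor
    · intro h'
      obtain rfl := Option.some.inj h'
      exact ⟨rfl, h⟩
    · rintro ⟨h1, _⟩; rw [h1]

lemma stepS_of_ne {S : ℕ → Bool} {q : Q} {c : Col} (h : dl S q c ≠ Q.dead) :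
    stepS S q c = some (dl S q c) := stepS_some.2 ⟨rfl, h⟩

/-- a node from which some strategy wins -/
lemma win_safety {S : ℕ → Bool} {A : Arena Col} {T : A.Strat} (hT : A.IsStrategy T) {u : A.V}
    (hw : A.Wins (SafeW S) T u) : Q.L 0 false ∈ Zs (stepS S) A u := by
  have halive : ∀ l, A.CPath T u l → runQ S l ≠ Q.dead := by
    intro l hl
    obtain ⟨ρ, h1, h2, h3⟩ := hl.exists_play hT
    have h4 := hw ρ h1 h2 l.length
    rw [← runQ_pre, h3] at h4
    exact h4
  refine ⟨{p | ∃ l, A.CPath T u l ∧ A.last u l = p.1 ∧ runQ S l = p.2}, ?_,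
    [], Arena.CPath.nil T u, rfl, rfl⟩
  rintro ⟨v, q⟩ ⟨l, hl, hv, hq⟩
  simp only at hv hq
  subst hv hq
  refine ⟨fun hP => ?_, fun hP c w he => ?_⟩
  · obtain ⟨h1, h2⟩ := hT u l hl.isPath hP
    have h3 := hl.snoc h1 h2 fun _ => rfl
    have h4 := halive _ h3
    refine ⟨(T u l).2.1, (T u l).2.2, ?_, runQ S (l ++ [T u l]), ?_, l ++ [T u l], h3, ?_, rfl⟩
    · have : (A.last u l, (T u l).2.1, (T u l).2.2) = T u l := by rw [← h2]
      rw [this]; exact h1
    · rw [runQ_append] at h4 ⊢
      exact stepS_of_ne h4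
    · rw [Arena.last_append]
  · have h3 := hl.snoc he rfl fun h => absurd h hP
    have h4 := halive _ h3
    refine ⟨runQ S (l ++ [(A.last u l, c, w)]), ?_, _, h3, ?_, rfl⟩
    · rw [runQ_append] at h4 ⊢
      exact stepS_of_ne h4
    · rw [Arena.last_append]

/-- `GenMem ≤ 3` for the safety condition. -/
theorem genMem_safeW (S : ℕ → Bool) : GenMemLE (SafeW S) 3 := by
  classical
  intro A
  let G : Set Q → Fin 3 → Q := fun X => if h : X.Nonempty then (gen3 X h).choose else fun _ => Q.dead
  have hG : ∀ X : Set Q, X.Nonempty → (∀ j, G X j ∈ X) ∧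
    (∀ x ∈ X, ∃ j, qle (G X j) x) ∧ (Q.L 0 false ∈ X → qle (G X 0) (Q.L 0 false)) := by
    intro X hX
    simp only [G, dif_pos hX]
    exact (gen3 X hX).choose_spec
  obtain ⟨M, T, h1, h2, h3⟩ := core (step := stepS S) (le := qle) G (fun X hX => (hG X hX).1)
    (fun X x hx => (hG X ⟨x, hx⟩).2.1 x hx) A 0
  refine ⟨M, T, h1, h2, ?_⟩
  rintro u ⟨T', hT', hw⟩ ρ hρ hcons
  have hu := win_safety hT' hw
  obtain ⟨x, hx0, -, hx⟩ := h3 u ρ hρ hcons ⟨_, hu⟩
  set s : ℕ → Col := fun n => (ρ n).2.1 with hs
  have key : ∀ n, qle (x n) (st S s n) ∧ st S s n ≠ Q.dead := by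
    intro n
    induction n with
    | zero =>
      refine ⟨?_, by simp [st]⟩
      rw [hx0]
      exact (hG _ ⟨_, hu⟩).2.2 hu
    | succ n ih =>
      obtain ⟨u', h4, h5⟩ := hx n
      obtain ⟨h6, h7⟩ := stepS_some.1 h4
      have h8 : qle u' (st S s (n + 1)) := by
        rw [← h6]
        exact dl_mono S ih.1 _
      refine ⟨qle_trans h5 h8, fun h9 => h7 ?_⟩
      rw [h9] at h8
      exact qle_dead h8
  exact fun n => (key n).2

/-! ### The lower bound for chromatic memory -/

/-- The line arena: nodes `0, …, 2i+2`; Antagonist chooses `i` letters, Protagonist (at the node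
`i`) chooses a test letter, then `i + 1` letters `a` follow, and then the letter `b` forever. -/
def lineArena (i : ℕ) : Arena Col where
  V := Fin (2 * i + 3)
  finV := inferInstance
  neV := ⟨0⟩
  P := {x | x.val = i}
  E := {e | (e.1.val < i ∧ e.2.1.1 = false ∧ e.2.2.val = e.1.val + 1) ∨
    (e.1.val = i ∧ e.2.1.1 = true ∧ e.2.2.val = e.1.val + 1) ∨
    (i < e.1.val ∧ e.1.val < 2 * i + 2 ∧ e.2.1 = (false, false) ∧ e.2.2.val = e.1.val + 1) ∨
    (e.1.val = 2 * i + 2 ∧ e.2.1 = (false, true) ∧ e.2.2.val = 2 * i + 2)}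
  out := by
    intro v
    rcases lt_trichotomy v.val i with h | h | h
    · exact ⟨(false, false), ⟨v.val + 1, by omega⟩, Or.inl ⟨h, rfl, rfl⟩⟩
    · exact ⟨(true, false), ⟨v.val + 1, by omega⟩, Or.inr (Or.inl ⟨h, rfl, rfl⟩)⟩
    · by_cases h' : v.val < 2 * i + 2
      · exact ⟨(false, false), ⟨v.val + 1, by omega⟩, Or.inr (Or.inr (Or.inl ⟨h, h', rfl, rfl⟩))⟩
      · exact ⟨(false, true), ⟨2 * i + 2, by omega⟩,
          Or.inr (Or.inr (Or.inr ⟨by have := v.2; simp only; omega, rfl, rfl⟩))⟩

section lower

variable {i : ℕ}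

/-- the node visited at time `n` -/
def node (i n : ℕ) : Fin (2 * i + 3) := ⟨min n (2 * i + 2), by omega⟩

lemma node_val_le {n : ℕ} (h : n ≤ 2 * i + 2) : (node i n).val = n := by simp [node, h]

lemma node_val_ge {n : ℕ} (h : 2 * i + 2 ≤ n) : (node i n).val = 2 * i + 2 := by simp [node, h]

lemma play_node {ρ : ℕ → (lineArena i).Edge} (h : (lineArena i).IsPlay (node i 0) ρ) (n : ℕ) :
    (ρ n).1 = node i n := by
  induction n with
  | zero => exact h.1
  | succ n ih =>
    rw [h.2.2 n]
    have h1 := h.2.1 n
    apply Fin.ext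
    rcases le_or_gt (2 * i + 2) n with h2 | h2
    · have h3 : (ρ n).1.val = 2 * i + 2 := by rw [ih]; exact node_val_ge h2
      rw [node_val_ge (by omega)]
      rcases h1 with h4 | h4 | h4 | h4
      · omega
      · omega
      · omega
      · exact h4.2.2
    · have h3 : (ρ n).1.val = n := by rw [ih]; exact node_val_le h2.le
      rw [node_val_le (by omega)]
      rcases h1 with h4 | h4 | h4 | h4
      · rw [h4.2.2, h3]
      · rw [h4.2.2, h3]
      · rw [h4.2.2.2, h3]
      · omega

/-- the colours of a play with letters `w` and test letter `σ` -/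
def cl (i : ℕ) (w : ℕ → Bool) (σ : Bool) (n : ℕ) : Col :=
  if n < i then (false, w n) else if n = i then (true, σ) else
    if n < 2 * i + 2 then (false, false) else (false, true)

lemma cl_lt (w : ℕ → Bool) (σ : Bool) {n : ℕ} (h : n < i) : cl i w σ n = (false, w n) := by
  rw [cl, if_pos h]

lemma cl_eq (w : ℕ → Bool) (σ : Bool) : cl i w σ i = (true, σ) := by
  simp [cl]

lemma cl_gt (w : ℕ → Bool) (σ : Bool) {n : ℕ} (h : i < n) (h' : n < 2 * i + 2) :
    cl i w σ n = (false, false) := by
  rw [cl, if_neg (by omega), if_neg (by omega), if_pos h']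

lemma cl_ge (w : ℕ → Bool) (σ : Bool) {n : ℕ} (h : 2 * i + 2 ≤ n) :
    cl i w σ n = (false, true) := by
  rw [cl, if_neg (by omega), if_neg (by omega), if_neg (by omega)]

/-- the play with letters `w` and test letter `σ` -/
def pl (i : ℕ) (w : ℕ → Bool) (σ : Bool) (n : ℕ) : (lineArena i).Edge :=
  (node i n, cl i w σ n, node i (n + 1))

lemma pl_mem (w : ℕ → Bool) (σ : Bool) (n : ℕ) : pl i w σ n ∈ (lineArena i).E := by
  rcases lt_trichotomy n i with h | h | h
  · left
    refine ⟨?_, ?_, ?_⟩
    · simp only [pl]; rw [node_val_le (by omega)]; exact h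
    · simp only [pl]; rw [cl_lt w σ h]
    · simp only [pl]; rw [node_val_le (by omega), node_val_le (by omega)]
  · right; left
    refine ⟨?_, ?_, ?_⟩
    · simp only [pl]; rw [node_val_le (by omega)]; exact h
    · simp only [pl]; subst h; rw [cl_eq]
    · simp only [pl]; rw [node_val_le (by omega), node_val_le (by omega)]
  · by_cases h' : n < 2 * i + 2
    · right; right; left
      refine ⟨?_, ?_, ?_, ?_⟩
      · simp only [pl]; rw [node_val_le (by omega)]; exact h
      · simp only [pl]; rw [node_val_le (by omega)]; exact h'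
      · simp only [pl]; rw [cl_gt w σ h h']
      · simp only [pl]; rw [node_val_le (by omega), node_val_le (by omega)]
    · right; right; right
      refine ⟨?_, ?_, ?_⟩
      · simp only [pl]; rw [node_val_ge (by omega)]
      · simp only [pl]; rw [cl_ge w σ (by omega)]
      · simp only [pl]; rw [node_val_ge (by omega)]

lemma pl_isPlay (w : ℕ → Bool) (σ : Bool) : (lineArena i).IsPlay (node i 0) (pl i w σ) :=
  ⟨rfl, pl_mem w σ, fun _ => rfl⟩

/-- the states along such a sequence of colours -/
lemma st_cl (S : ℕ → Bool) (s : ℕ → Col) (w : ℕ → Bool) (σ : Bool) (hs : ∀ n, s n = cl i w σ n) :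
    (∀ n, n ≤ i → st S s n = Q.L n (typ S w n)) ∧
    (∀ n, i < n → n ≤ 2 * i + 1 → st S s n =
      Q.E ((if σ = typ S w i then i + 1 else i) - (n - (i + 1)))) := by
  have h1 : ∀ n, n ≤ i → st S s n = Q.L n (typ S w n) := by
    refine run_level S w (st S s) rfl i fun n hn => ?_
    simp only [st]
    rw [hs, cl_lt w σ hn]
  refine ⟨h1, fun n hn hn' => ?_⟩
  obtain ⟨r, hr, hir⟩ : ∃ r, (if σ = typ S w i then i + 1 else i) = r ∧ i ≤ r :=
    ⟨_, rfl, by split_ifs <;> omega⟩
  rw [hr]
  obtain ⟨j, rfl⟩ := Nat.exists_eq_add_of_lt hn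
  induction j with
  | zero =>
    rw [add_zero, Nat.sub_self, Nat.sub_zero]
    simp only [st]
    rw [h1 i le_rfl, hs, cl_eq]
    show Q.E _ = _
    rw [hr]
  | succ j ih =>
    have h2 := ih (by omega) (by omega)
    rw [show i + (j + 1) + 1 = (i + j + 1) + 1 by ring]
    rw [st, h2, hs, cl_gt w σ (by omega) (by omega), dl_E, if_pos rfl, if_neg (by omega)]
    congr 1
    omega

/-- Protagonist can win from the node `0` of the line arena. -/
lemma line_wins (S : ℕ → Bool) (i : ℕ) : ∃ T, (lineArena i).IsStrategy T ∧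
    (lineArena i).Wins (SafeW S) T (node i 0) := by
  let ty : Q → Bool := fun q => match q with
    | Q.L _ τ => τ
    | _ => false
  let T : (lineArena i).Strat := fun _ l => (node i i, (true, ty (runQ S l)), node i (i + 1))
  refine ⟨T, ?_, ?_⟩
  · intro u l _ hP
    have hP' : ((lineArena i).last u l).val = i := hP
    refine ⟨?_, ?_⟩
    · right; left
      refine ⟨?_, rfl, ?_⟩
      · simp only [T]; rw [node_val_le (by omega)]
      · simp only [T]; rw [node_val_le (by omega), node_val_le (by omega)]
    · simp only [T]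
      apply Fin.ext
      rw [hP', node_val_le (by omega)]
  · intro ρ hρ hcons
    set s : ℕ → Col := fun n => (ρ n).2.1 with hs
    let w : ℕ → Bool := fun n => (s n).2
    have hnode := play_node hρ
    have h1 : ∀ n, n < i → s n = (false, w n) := by
      intro n hn
      have h2 : (ρ n).1.val = n := by rw [hnode]; exact node_val_le (by omega)
      have h3 : (s n).1 = false := by
        rcases hρ.2.1 n with h4 | h4 | h4 | h4
        · exact h4.2.1
        · omega
        · omega
        · omega
      exact Prod.ext h3 rfl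
    have h2 : ∀ n, n ≤ i → st S s n = Q.L n (typ S w n) := by
      refine run_level S w (st S s) rfl i fun n hn => ?_
      simp only [st]
      rw [h1 n hn]
    have h3 : s i = (true, typ S w i) := by
      have h4 : (ρ i).1 ∈ (lineArena i).P := by
        show (ρ i).1.val = i
        rw [hnode]; exact node_val_le (by omega)
      have h5 := hcons i h4
      simp only [hs, h5, T]
      rw [runQ_pre, ← hs, h2 i le_rfl]
    have hs' : ∀ n, s n = cl i w (typ S w i) n := by
      intro n
      rcases lt_trichotomy n i with h | h | h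
      · rw [cl_lt _ _ h, h1 n h]
      · subst h; rw [cl_eq, h3]
      · by_cases h' : n < 2 * i + 2
        · have h2 : (ρ n).1.val = n := by rw [hnode]; exact node_val_le (by omega)
          rw [cl_gt _ _ h h']
          rcases hρ.2.1 n with h4 | h4 | h4 | h4
          · omega
          · omega
          · exact h4.2.2.1
          · omega
        · have h2 : (ρ n).1.val = 2 * i + 2 := by rw [hnode]; exact node_val_ge (by omega)
          rw [cl_ge _ _ (by omega)]
          rcases hρ.2.1 n with h4 | h4 | h4 | h4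
          · omega
          · omega
          · omega
          · exact h4.2.1
    obtain ⟨h4, h5⟩ := st_cl S s w (typ S w i) hs'
    have h6 : ∀ j, st S s (2 * i + 2 + j) = Q.E 0 := by
      intro j
      induction j with
      | zero =>
        rw [add_zero, st]
        rcases Nat.eq_zero_or_pos i with h0 | h0
        · subst h0
          have h7 := h5 1 (by omega) (by omega)
          rw [show 2 * 0 + 1 = 1 from rfl, h7, if_pos rfl, hs' 1, cl_gt _ _ (by omega) (by omega)]
          rfl
        · rw [h5 (2 * i + 1) (by omega) (by omega), if_pos rfl, hs', cl_gt _ _ (by omega)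
            (by omega), dl_E, if_pos rfl, if_neg (by omega)]
          congr 1
          omega
      | succ j ih =>
        rw [← add_assoc, st, ih, hs', cl_ge _ _ (by omega)]
        rfl
    intro n
    rcases le_or_gt n i with h | h
    · rw [h4 n h]; simp
    · rcases le_or_gt n (2 * i + 1) with h' | h'
      · rw [h5 n h h']; simp
      · obtain ⟨j, rfl⟩ := Nat.exists_eq_add_of_le (show 2 * i + 2 ≤ n by omega)
        rw [h6]; simp

/-- `ChrMem = ∞` for the safety condition. -/
theorem chrMem_safeW {S : ℕ → Bool} (hS : Window S) (k : ℕ) : ¬ ChrMemLE (SafeW S) k := by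
  intro hk
  obtain ⟨i, hi⟩ := collision hS k
  obtain ⟨M, T, hM, hT, hMT, hopt⟩ := hk (lineArena i)
  have hwin := hopt _ (line_wins S i)
  let f : Fin k → Bool → Fin k := fun m x => M.upd m (node i 0, (false, x), node i 0)
  obtain ⟨w, w', h1, h2⟩ := hi f M.init
  have hrun : ∀ (w : ℕ → Bool) (σ : Bool) n, n ≤ i →
      M.run ((lineArena i).pre (pl i w σ) n) = runF f M.init w n := by
    intro w σ n hn
    induction n with
    | zero => rfl
    | succ n ih =>
      rw [Arena.pre_succ, Arena.Memory.run, List.foldl_append, List.foldl_cons, List.foldl_nil,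
        ← Arena.Memory.run, ih (by omega), runF]
      apply hM
      simp only [pl]
      rw [cl_lt w σ (by omega)]
  have hpre : ∀ (w : ℕ → Bool) (σ σ' : Bool), (lineArena i).pre (pl i w σ) i =
      (lineArena i).pre (pl i w σ') i := by
    intro w σ σ'
    refine List.map_congr_left fun n hn => ?_
    rw [List.mem_range] at hn
    simp only [pl]
    rw [cl_lt w σ hn, cl_lt w σ' hn]
  have hpath : ∀ (w : ℕ → Bool) (σ : Bool), (lineArena i).IsPath (node i 0)
      ((lineArena i).pre (pl i w σ) i) := by
    intro w σ l' e he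
    have h3 := List.IsPrefix.trans (List.prefix_append l' [e]) he
    have h4 : l' ++ [e] = (lineArena i).pre (pl i w σ) (l'.length + 1) := by
      have h5 := List.prefix_iff_eq_take.1 he
      rw [List.length_append, List.length_singleton] at h5
      have h6 : l'.length + 1 ≤ i := by
        have := he.length_le
        rw [Arena.pre_length] at this
        simpa using this
      rw [h5, Arena.pre, ← List.map_take, List.take_range, min_eq_left h6]
      rfl
    rw [Arena.pre_succ] at h4
    obtain ⟨h5, h6⟩ := List.append_inj' h4 rfl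
    obtain rfl : e = pl i w σ l'.length := by simpa using h6
    refine ⟨pl_mem w σ _, ?_⟩
    rw [h5, Arena.pre_length, Arena.isPlay_last (pl_isPlay w σ)]
  have hlast : ∀ (w : ℕ → Bool) (σ : Bool), (lineArena i).last (node i 0)
      ((lineArena i).pre (pl i w σ) i) = node i i := fun w σ =>
    Arena.isPlay_last (pl_isPlay w σ) i
  have hP : node i i ∈ (lineArena i).P := node_val_le (by omega)
  have hmove : ∀ (w : ℕ → Bool), ∃ σ, T (node i 0) ((lineArena i).pre (pl i w σ) i) =
      pl i w σ i := by
    intro w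
    obtain ⟨h3, h4⟩ := hT (node i 0) _ (hpath w false) (by rw [hlast]; exact hP)
    rw [hlast] at h4
    set x := T (node i 0) ((lineArena i).pre (pl i w false) i) with hx
    have hxi : x.1.val = i := by rw [h4]; exact node_val_le (by omega)
    refine ⟨x.2.1.2, ?_⟩
    rw [hpre w x.2.1.2 false, ← hx]
    rcases h3 with h5 | h5 | h5 | h5
    · omega
    · refine Prod.ext h4 (Prod.ext (Prod.ext ?_ ?_) ?_)
      · simp only [pl]; rw [cl_eq]; exact h5.2.1
      · simp only [pl]; rw [cl_eq]
      · apply Fin.ext
        rw [h5.2.2, hxi]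
        simp only [pl]; rw [node_val_le (by omega)]
    · omega
    · omega
  obtain ⟨σ, hσ⟩ := hmove w
  obtain ⟨σ', hσ'⟩ := hmove w'
  have hσσ : σ = σ' := by
    have h3 := hMT (node i 0) _ (node i 0) _ (hpath w σ) (hpath w' σ') (by rw [hlast]; exact hP)
      (by rw [hlast, hlast]) (by rw [hrun w σ i le_rfl, hrun w' σ' i le_rfl]; exact h1)
    rw [hσ, hσ'] at h3
    have h4 := congrArg (fun e : (lineArena i).Edge => e.2.1.2) h3
    simp only [pl] at h4
    rw [cl_eq, cl_eq] at h4
    exact h4
  subst hσσ
  -- a word whose type differs from `σ`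
  obtain ⟨v, hv1, hv2⟩ : ∃ v : ℕ → Bool, T (node i 0) ((lineArena i).pre (pl i v σ) i) =
      pl i v σ i ∧ σ ≠ typ S v i := by
    by_cases h : σ = typ S w i
    · exact ⟨w', hσ', fun h' => h2 (h.symm.trans h')⟩
    · exact ⟨w, hσ, h⟩
  have hcons : (lineArena i).Consistent T (node i 0) (pl i v σ) := by
    intro n hn
    have hn' : (node i n).val = i := hn
    have hni : n = i := by
      rcases le_or_gt n (2 * i + 2) with h | h
      · rw [node_val_le h] at hn'; exact hn'
      · rw [node_val_ge h.le] at hn'; omega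
    subst hni
    exact hv1.symm
  have hbad := hwin _ (pl_isPlay v σ) hcons
  obtain ⟨h4, h5⟩ := st_cl (i := i) S (fun n => (pl i v σ n).2.1) v σ (fun n => rfl)
  apply hbad (2 * i + 2)
  rw [st]
  rcases Nat.eq_zero_or_pos i with h0 | h0
  · have h7 := h5 (2 * i + 1) (by omega) (by omega)
    simp only [pl] at h7 ⊢
    rw [h7, if_neg hv2, cl_gt _ _ (by omega) (by omega), dl_E, if_pos rfl, if_pos (by omega)]
  · have h7 := h5 (2 * i + 1) (by omega) (by omega)
    simp only [pl] at h7 ⊢
    rw [h7, if_neg hv2, cl_gt _ _ (by omega) (by omega), dl_E, if_pos rfl, if_pos (by omega)]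

end lower

end Pool.Agent.GameMem200
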